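import Mathlib

/-!
# Algebraically independent families of reals of size at most continuum
-/

open Cardinal

namespace Q184

theorem exists_algInd (J : Type) (hJ : #J ≤ 𝔠) : ∃ x : J → ℝ, AlgebraicIndependent ℚ x := by
  obtain ⟨s, hs⟩ := exists_isTranscendenceBasis ℚ ℝ
  have hcard : 𝔠 ≤ #s := by
    by_contra hlt
    rw [not_le] at hlt
    have := hs.isAlgebraic
    have h1 := Algebra.IsAlgebraic.cardinalMk_le_max
      (Algebra.adjoin ℚ (Set.range ((↑) : s → ℝ))) ℝ
    have h2 : #(Algebra.adjoin ℚ (Set.range ((↑) : s → ℝ))) ≤ max (max #ℚ #s) ℵ₀ := by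
      have h3 := Cardinal.mk_congr (hs.1.aevalEquiv.toEquiv)
      rw [← h3]
      exact MvPolynomial.cardinalMk_le_max
    have h4 : #ℚ = ℵ₀ := Cardinal.mkRat
    rw [h4] at h2
    rw [Cardinal.mk_real] at h1
    have h5 : max (max ℵ₀ #s) ℵ₀ < 𝔠 :=
      max_lt (max_lt aleph0_lt_continuum hlt) aleph0_lt_continuum
    have h6 : 𝔠 ≤ max (max (max ℵ₀ #s) ℵ₀) ℵ₀ := h1.trans (max_le_max h2 le_rfl)
    have h7 : max (max (max ℵ₀ #s) ℵ₀) ℵ₀ < 𝔠 := max_lt h5 aleph0_lt_continuum
    exact absurd h6 (not_le.mpr h7)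
  obtain ⟨e⟩ := (Cardinal.le_def _ _).mp (hJ.trans hcard)
  exact ⟨fun j => (e j : ℝ), hs.1.comp e e.injective⟩

/-- A family `x` of reals and a positive real `T` transcendental over the ring generated by
`x`. -/
theorem exists_transcendental_over (J : Type) (hJ : #J ≤ 𝔠) :
    ∃ (x : J → ℝ) (T : ℝ), AlgebraicIndependent ℚ x ∧ 0 < T ∧
      Transcendental (Algebra.adjoin ℚ (Set.range x)) T := by
  have hJ' : #(Option J) ≤ 𝔠 := by
    rw [Cardinal.mk_option]
    refine (add_le_add hJ (one_le_aleph0.trans aleph0_le_continuum)).trans ?_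
    rw [continuum_add_self]
  obtain ⟨y, hy⟩ := exists_algInd (Option J) hJ'
  have hy' : AlgebraicIndependent ℚ
      (fun o : Option J => o.elim (y none) (fun j => y (some j))) := by
    convert hy using 1
    funext o
    cases o <;> rfl
  obtain ⟨h1, h2⟩ := AlgebraicIndependent.option_iff.mp hy'
  have hne : y none ≠ 0 := by
    intro h0
    rw [h0] at h2
    exact h2 (isAlgebraic_zero)
  rcases lt_or_gt_of_ne hne with hneg | hpos
  · refine ⟨_, -(y none), h1, neg_pos.mpr hneg, ?_⟩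
    intro h
    exact h2 (by simpa using h.neg)
  · exact ⟨_, y none, h1, hpos, h2⟩

end Q184
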