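import Pool.Agent.Q88.MD.Stm

/-! Project MD, job KER: the energy kernel is bounded by a dyadic sum. -/

set_option autoImplicit false

open MeasureTheory Set Filter Topology
open scoped ENNReal NNReal

noncomputable section

namespace Pool.Agent.Q88.MD

namespace KER

/-- The kernel of the energy near a point. -/
def hk (e D u : ℝ) : ℝ≥0∞ := ENNReal.ofReal u ^ e * ENNReal.ofReal (max (D / 2) u) ^ e

lemma anti {e a b : ℝ} (he : e < 0) (hab : a ≤ b) :
    ENNReal.ofReal b ^ e ≤ ENNReal.ofReal a ^ e := by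
  have h1 : ENNReal.ofReal a ≤ ENNReal.ofReal b := ENNReal.ofReal_le_ofReal hab
  have h2 := ENNReal.rpow_le_rpow h1 (by linarith : 0 ≤ -e)
  rw [ENNReal.rpow_neg, ENNReal.rpow_neg] at h2
  exact ENNReal.inv_le_inv.1 h2

lemma hk_meas (e D : ℝ) : Measurable (hk e D) := by
  unfold hk
  fun_prop

/-- The dyadic indicator. -/
def ind (n : ℕ) (w : ℝ) : ℝ≥0∞ := {w : ℝ | w ≤ 2 * (1 / 2) ^ n}.indicator (fun _ => 1) w

lemma ind_eq {n : ℕ} {w : ℝ} (h : w / 2 ≤ (1 / 2) ^ n) : ind n w = 1 := by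
  unfold ind
  rw [indicator_of_mem]
  show w ≤ 2 * (1 / 2) ^ n
  linarith

lemma point {e D x y z : ℝ} (he : e < 0) (hD : D ≤ |x - y| + |x - z|) (h1 : 0 < |x - y|)
    (h1' : |x - y| ≤ 1) (h2 : 0 < |x - z|) (h2' : |x - z| ≤ 1) :
    ENNReal.ofReal |x - y| ^ e * ENNReal.ofReal |x - z| ^ e ≤
      ((Ioc 0 1).indicator (hk e D) (x - y) + (Ioc 0 1).indicator (hk e D) (y - x)) +
      ((Ioc 0 1).indicator (hk e D) (x - z) + (Ioc 0 1).indicator (hk e D) (z - x)) := by
  have key : ∀ w : ℝ, 0 < |x - w| → |x - w| ≤ 1 → hk e D |x - w| ≤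
      (Ioc 0 1).indicator (hk e D) (x - w) + (Ioc 0 1).indicator (hk e D) (w - x) := by
    intro w hw hw'
    rcases le_total 0 (x - w) with h | h
    · rw [abs_of_nonneg h] at hw hw' ⊢
      rw [indicator_of_mem (show x - w ∈ Ioc (0 : ℝ) 1 from ⟨hw, hw'⟩)]
      exact le_self_add
    · rw [abs_of_nonpos h, neg_sub] at hw hw' ⊢
      rw [indicator_of_mem (show w - x ∈ Ioc (0 : ℝ) 1 from ⟨hw, hw'⟩)]
      exact le_add_self
  rcases le_total |x - y| |x - z| with h | h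
  · refine le_trans ?_ (le_trans (key y h1 h1') le_self_add)
    exact mul_le_mul' le_rfl (anti he (max_le (by linarith) h))
  · refine le_trans ?_ (le_trans (key z h2 h2') le_add_self)
    rw [mul_comm]
    exact mul_le_mul' le_rfl (anti he (max_le (by linarith) h))

/-- The integral near zero. -/
lemma part1 {τ a : ℝ} (hτ : 0 < τ) (ha : 0 < a) :
    ∫⁻ u in Ioc 0 a, ENNReal.ofReal u ^ (τ - 1) = ENNReal.ofReal (a ^ τ / τ) := by
  have hI : IntervalIntegrable (fun u : ℝ => u ^ (τ - 1)) volume 0 a :=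
    intervalIntegral.intervalIntegrable_rpow' (by linarith)
  have h1 : ∫⁻ u in Ioc 0 a, ENNReal.ofReal u ^ (τ - 1) =
      ∫⁻ u in Ioc 0 a, ENNReal.ofReal (u ^ (τ - 1)) := by
    refine setLIntegral_congr_fun measurableSet_Ioc fun u hu => ?_
    exact ENNReal.ofReal_rpow_of_pos hu.1
  rw [h1, ← ofReal_integral_eq_lintegral_ofReal]
  · congr 1
    rw [← intervalIntegral.integral_of_le ha.le, integral_rpow (Or.inl (by linarith))]
    rw [show τ - 1 + 1 = τ by ring, Real.zero_rpow hτ.ne', sub_zero]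
  · exact (intervalIntegrable_iff_integrableOn_Ioc_of_le ha.le).1 hI
  · filter_upwards [self_mem_ae_restrict (μ := volume) (measurableSet_Ioc (a := (0 : ℝ)) (b := a))]
      with u hu
    exact Real.rpow_nonneg hu.1.le _

lemma two_pow_eq (n : ℕ) (s : ℝ) : ((1 / 2 : ℝ) ^ n) ^ (-s) = 2 ^ ((n : ℝ) * s) := by
  rw [one_div, ← Real.rpow_natCast, Real.inv_rpow (by norm_num), Real.inv_rpow (by positivity),
    Real.rpow_neg (by positivity), inv_inv, ← Real.rpow_mul (by norm_num)]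

/-- The dyadic pieces. -/
def pc (s D : ℝ) (n : ℕ) (u : ℝ) : ℝ≥0∞ :=
  (Ioc ((1 / 2 : ℝ) ^ (n + 1)) ((1 / 2) ^ n)).indicator
    (fun _ => ENNReal.ofReal (2 ^ (((n + 1 : ℕ) : ℝ) * (1 + s))) * ind n D) u

lemma pc_meas (s D : ℝ) (n : ℕ) : Measurable (pc s D n) := by
  unfold pc
  exact measurable_const.indicator measurableSet_Ioc

lemma pc_int (s D : ℝ) (n : ℕ) :
    ∫⁻ u, pc s D n u = ENNReal.ofReal (2 ^ s) * (ENNReal.ofReal (2 ^ (n * s)) * ind n D) := by
  unfold pc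
  rw [lintegral_indicator measurableSet_Ioc, lintegral_const, Measure.restrict_apply_univ,
    Real.volume_Ioc]
  rw [mul_right_comm, ← mul_assoc, ← ENNReal.ofReal_mul (by positivity),
    ← ENNReal.ofReal_mul (by positivity)]
  congr 2
  have h1 : ((1 / 2 : ℝ) ^ n - (1 / 2) ^ (n + 1)) = 2 ^ (-((n + 1 : ℕ) : ℝ)) := by
    rw [Real.rpow_neg (by norm_num), Real.rpow_natCast, ← inv_pow, ← one_div]
    ring
  rw [h1, ← Real.rpow_add (by norm_num), ← Real.rpow_add (by norm_num)]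
  congr 1
  push_cast
  ring

lemma hk_le {s D u : ℝ} (hs : 0 ≤ s) (hu : u ∈ Ioc (0 : ℝ) 1) :
    hk ((1 - s) / 2 - 1) D u ≤
      (Ioc 0 (D / 2)).indicator (fun u => ENNReal.ofReal (D / 2) ^ ((1 - s) / 2 - 1) *
        ENNReal.ofReal u ^ ((1 - s) / 2 - 1)) u + ∑' n, pc s D n u := by
  rcases le_or_gt u (D / 2) with h | h
  · rw [indicator_of_mem (show u ∈ Ioc (0 : ℝ) (D / 2) from ⟨hu.1, h⟩)]
    refine le_trans ?_ le_self_add
    unfold hk
    rw [max_eq_left h, mul_comm]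
  · refine le_trans ?_ le_add_self
    obtain ⟨n, hn1, hn2⟩ := exists_nat_pow_near_of_lt_one hu.1 hu.2 (by norm_num : (0 : ℝ) < 1 / 2)
      (by norm_num)
    refine le_trans ?_ (ENNReal.le_tsum n)
    unfold pc
    rw [indicator_of_mem (show u ∈ Ioc ((1 / 2 : ℝ) ^ (n + 1)) ((1 / 2) ^ n) from ⟨hn1, hn2⟩),
      ind_eq (by linarith), mul_one]
    unfold hk
    rw [max_eq_right h.le, ENNReal.ofReal_rpow_of_pos hu.1, ← ENNReal.ofReal_mul
      (Real.rpow_nonneg hu.1.le _), ← Real.rpow_add hu.1]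
    refine ENNReal.ofReal_le_ofReal ?_
    rw [show (1 - s) / 2 - 1 + ((1 - s) / 2 - 1) = -(1 + s) by ring, ← two_pow_eq]
    exact Real.rpow_le_rpow_of_nonpos (by positivity) hn1.le (by linarith)

lemma int_hk {s D : ℝ} (hs : 0 ≤ s) (hs1 : s < 1) (hD : 0 < D) (hD1 : D ≤ 1) :
    ∫⁻ u, (Ioc 0 1).indicator (hk ((1 - s) / 2 - 1) D) u ≤
      ENNReal.ofReal (2 ^ s / ((1 - s) / 2) + 2 ^ s) *
        ∑' n : ℕ, ENNReal.ofReal (2 ^ (n * s)) * ind n D := by
  have hτ : 0 < (1 - s) / 2 := by linarith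
  have h1 : ∀ u, (Ioc 0 1).indicator (hk ((1 - s) / 2 - 1) D) u ≤
      (Ioc 0 (D / 2)).indicator (fun u => ENNReal.ofReal (D / 2) ^ ((1 - s) / 2 - 1) *
        ENNReal.ofReal u ^ ((1 - s) / 2 - 1)) u + ∑' n, pc s D n u := by
    intro u
    by_cases hu : u ∈ Ioc (0 : ℝ) 1
    · rw [indicator_of_mem hu]
      exact hk_le hs hu
    · rw [indicator_of_notMem hu]
      exact bot_le
  refine (lintegral_mono h1).trans ?_
  rw [lintegral_add_right _ (Measurable.tsum fun n => pc_meas s D n),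
    lintegral_tsum fun n => (pc_meas s D n).aemeasurable, lintegral_indicator measurableSet_Ioc,
    lintegral_const_mul _ (by fun_prop), part1 hτ (by linarith)]
  simp only [pc_int]
  rw [ENNReal.tsum_mul_left, ENNReal.ofReal_add (by positivity) (by positivity), add_mul]
  gcongr ?_ + _
  obtain ⟨n, hn1, hn2⟩ := exists_nat_pow_near_of_lt_one (by linarith : 0 < D / 2)
    (by linarith : D / 2 ≤ 1) (by norm_num : (0 : ℝ) < 1 / 2) (by norm_num)
  have h2 : ENNReal.ofReal (D / 2) ^ ((1 - s) / 2 - 1) *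
      ENNReal.ofReal ((D / 2) ^ ((1 - s) / 2) / ((1 - s) / 2)) ≤
      ENNReal.ofReal (2 ^ s / ((1 - s) / 2)) * (ENNReal.ofReal (2 ^ (n * s)) * ind n D) := by
    rw [ind_eq hn2, mul_one, ENNReal.ofReal_rpow_of_pos (by linarith),
      ← ENNReal.ofReal_mul (by positivity), ← ENNReal.ofReal_mul (by positivity)]
    refine ENNReal.ofReal_le_ofReal ?_
    rw [mul_div_assoc', ← Real.rpow_add (by linarith), div_mul_eq_mul_div, ← Real.rpow_add
      (by norm_num)]
    refine div_le_div_of_nonneg_right ?_ hτ.le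
    rw [show (1 - s) / 2 - 1 + (1 - s) / 2 = -s by ring,
      show s + (n : ℝ) * s = ((n + 1 : ℕ) : ℝ) * s by push_cast; ring, ← two_pow_eq]
    exact Real.rpow_le_rpow_of_nonpos (by positivity) hn1.le (by linarith)
  refine h2.trans ?_
  gcongr
  exact ENNReal.le_tsum (f := fun n : ℕ => ENNReal.ofReal (2 ^ (n * s)) * ind n D) n

end KER

open KER in
/-- **JOB KER**. -/
theorem ker : S_ker := by
  intro s hs
  have hs0 : 0 ≤ s := hs.1
  have hs1 : s < 1 := hs.2
  have hτ : 0 < (1 - s) / 2 := by linarith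
  have he : (1 - s) / 2 - 1 < 0 := by linarith
  refine ⟨4 * ENNReal.ofReal (2 ^ s / ((1 - s) / 2) + 2 ^ s), ENNReal.mul_ne_top (by norm_num)
    ENNReal.ofReal_ne_top, fun y hy z hz => ?_⟩
  rcases eq_or_ne y z with rfl | hyz
  · have h1 : ∑' n : ℕ, ENNReal.ofReal (2 ^ (n * s)) *
        {w : ℝ | w ≤ 2 * (1 / 2) ^ n}.indicator (fun _ => 1) |y - y| = ⊤ := by
      have h2 : ∑' _ : ℕ, (1 : ℝ≥0∞) = ⊤ := ENNReal.tsum_const_eq_top_of_ne_zero one_ne_zero
      refine top_le_iff.1 (h2 ▸ ENNReal.tsum_le_tsum fun n => ?_)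
      rw [indicator_of_mem, mul_one]
      · rw [← ENNReal.ofReal_one]
        refine ENNReal.ofReal_le_ofReal (Real.one_le_rpow (by norm_num) (by positivity))
      · show |y - y| ≤ 2 * (1 / 2) ^ n
        rw [sub_self, abs_zero]
        positivity
    rw [h1, ENNReal.mul_top]
    · exact le_top
    · refine mul_ne_zero (by norm_num) ?_
      rw [ne_eq, ENNReal.ofReal_eq_zero, not_le]
      positivity
  · set D := |y - z| with hDdef
    have hD : 0 < D := abs_pos.2 (sub_ne_zero.2 hyz)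
    have hD1 : D ≤ 1 := by
      rw [hDdef, abs_le]
      constructor <;> linarith [hy.1, hy.2, hz.1, hz.2]
    have hae : ∀ᵐ x ∂(volume.restrict (Icc (0 : ℝ) 1)),
        ENNReal.ofReal |x - y| ^ ((1 - s) / 2 - 1) * ENNReal.ofReal |x - z| ^ ((1 - s) / 2 - 1) ≤
      ((Ioc 0 1).indicator (hk ((1 - s) / 2 - 1) D) (x - y) +
        (Ioc 0 1).indicator (hk ((1 - s) / 2 - 1) D) (y - x)) +
      ((Ioc 0 1).indicator (hk ((1 - s) / 2 - 1) D) (x - z) +
        (Ioc 0 1).indicator (hk ((1 - s) / 2 - 1) D) (z - x)) := by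
      have hy0 : ∀ᵐ x ∂(volume.restrict (Icc (0 : ℝ) 1)), x ≠ y :=
        ae_restrict_of_ae (Measure.ae_ne volume y)
      have hz0 : ∀ᵐ x ∂(volume.restrict (Icc (0 : ℝ) 1)), x ≠ z :=
        ae_restrict_of_ae (Measure.ae_ne volume z)
      filter_upwards [hy0, hz0, self_mem_ae_restrict (μ := volume)
        (measurableSet_Icc (a := (0 : ℝ)) (b := 1))] with x hxy hxz hx
      refine point he ?_ (abs_pos.2 (sub_ne_zero.2 hxy)) ?_ (abs_pos.2 (sub_ne_zero.2 hxz)) ?_
      · rw [hDdef, abs_sub_comm x y]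
        exact abs_sub_le y x z
      · rw [abs_le]
        constructor <;> linarith [hy.1, hy.2, hx.1, hx.2]
      · rw [abs_le]
        constructor <;> linarith [hz.1, hz.2, hx.1, hx.2]
    set H := (Ioc 0 1).indicator (hk ((1 - s) / 2 - 1) D) with hH
    have hHm : Measurable H := (hk_meas _ _).indicator measurableSet_Ioc
    refine (lintegral_mono_ae hae).trans ((setLIntegral_le_lintegral _ _).trans ?_)
    have hA : ∀ w : ℝ, ∫⁻ x, H (x - w) = ∫⁻ x, H x := fun w => lintegral_sub_right_eq_self H w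
    have hB : ∀ w : ℝ, ∫⁻ x, H (w - x) = ∫⁻ x, H x := fun w => lintegral_sub_left_eq_self H w
    rw [lintegral_add_left (by fun_prop), lintegral_add_left (by fun_prop),
      lintegral_add_left (by fun_prop), hA, hB, hA, hB]
    have hI := int_hk hs0 hs1 hD hD1
    calc (∫⁻ x, H x) + (∫⁻ x, H x) + ((∫⁻ x, H x) + (∫⁻ x, H x)) = 4 * ∫⁻ x, H x := by ring
      _ ≤ 4 * (ENNReal.ofReal (2 ^ s / ((1 - s) / 2) + 2 ^ s) *
        ∑' n : ℕ, ENNReal.ofReal (2 ^ (n * s)) * ind n D) := by gcongr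
      _ = _ := by rw [← mul_assoc]; rfl

end Pool.Agent.Q88.MD
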