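import Pool.Agent.Q88.MF.Stm

/-!
# Project MF, job RAT: `m (t) / t` is nondecreasing
-/

set_option autoImplicit false

namespace Pool.Agent.Q184.MF

open Pool.Agent.Q88.MF

theorem mf_pos {a t : ℝ} (ht : 0 < t) : 0 < mf a t := by
  unfold mf
  rw [if_neg (not_le.2 ht)]
  split_ifs
  · exact Real.exp_pos _
  · exact ht

/-- JOB RAT -/
theorem rat : S_rat := by
  intro a t t' ha ht htt
  have ht' : 0 < t' := ht.trans_le htt
  refine ⟨mf_pos ht, ?_⟩
  have hlu : Real.log (t ^ (-a)) = -a * Real.log t := Real.log_rpow ht (-a)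
  have hlu' : Real.log (t' ^ (-a)) = -a * Real.log t' := Real.log_rpow ht' (-a)
  have hu0 : 0 < t ^ (-a) := Real.rpow_pos_of_pos ht _
  have hu0' : 0 < t' ^ (-a) := Real.rpow_pos_of_pos ht' _
  unfold mf
  rw [if_neg (not_le.2 ht), if_neg (not_le.2 ht')]
  by_cases h1 : t < 1
  · rw [if_pos h1]
    by_cases h2 : t' < 1
    · rw [if_pos h2]
      have e1 : Real.exp (1 - t ^ (-a)) * t' = Real.exp (1 - t ^ (-a) + Real.log t') := by
        rw [Real.exp_add, Real.exp_log ht']
      have e2 : Real.exp (1 - t' ^ (-a)) * t = Real.exp (1 - t' ^ (-a) + Real.log t) := by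
        rw [Real.exp_add, Real.exp_log ht]
      rw [e1, e2]
      apply Real.exp_le_exp.2
      have h3 : t' ^ (-a) ≤ t ^ (-a) :=
        Real.rpow_le_rpow_of_nonpos ht htt (by linarith)
      have h4 : 1 ≤ t' ^ (-a) :=
        Real.one_le_rpow_of_pos_of_le_one_of_nonpos ht' h2.le (by linarith)
      have h5 : Real.log (t ^ (-a) / t' ^ (-a)) ≤ t ^ (-a) / t' ^ (-a) - 1 :=
        Real.log_le_sub_one_of_pos (div_pos hu0 hu0')
      rw [Real.log_div hu0.ne' hu0'.ne', hlu, hlu'] at h5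
      have h6 : t ^ (-a) / t' ^ (-a) - 1 ≤ t ^ (-a) - t' ^ (-a) := by
        rw [div_sub_one hu0'.ne', div_le_iff₀ hu0']
        nlinarith
      have h7 : Real.log t ≤ Real.log t' := Real.log_le_log ht htt
      nlinarith
    · rw [if_neg h2]
      have h5 : Real.log (t ^ (-a)) ≤ t ^ (-a) - 1 := Real.log_le_sub_one_of_pos hu0
      rw [hlu] at h5
      have h6 : Real.log t ≤ 0 := Real.log_nonpos ht.le h1.le
      have h7 : 1 - t ^ (-a) ≤ Real.log t := by nlinarith
      have h8 : Real.exp (1 - t ^ (-a)) ≤ t := by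
        calc Real.exp (1 - t ^ (-a)) ≤ Real.exp (Real.log t) := Real.exp_le_exp.2 h7
          _ = t := Real.exp_log ht
      calc Real.exp (1 - t ^ (-a)) * t' ≤ t * t' := mul_le_mul_of_nonneg_right h8 ht'.le
        _ = t' * t := mul_comm _ _
  · have h2 : ¬ t' < 1 := fun h => h1 (htt.trans_lt h)
    rw [if_neg h1, if_neg h2, mul_comm]

end Pool.Agent.Q184.MF
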