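import Pool.Agent.Q61.ND.Stm

/-! Project ND, job BPB: the drift on the torus is divergence free. -/

set_option autoImplicit false

open MeasureTheory Set Filter Topology Real

noncomputable section

namespace Pool.Agent.Q61.ND

open Pool.Agent.Q61.AD (P Q Per dt dx dy lap Tst D)

namespace BPB

lemma dx_eq {F : P → ℝ} {x : P} (h : DifferentiableAt ℝ F x) : dx F x = fderiv ℝ F x (1, 0) := by
  have h1 : HasDerivAt (fun s : ℝ => ((s, x.2) : P)) ((1, 0) : P) x.1 :=
    (hasDerivAt_id x.1).prodMk (hasDerivAt_const x.1 x.2)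
  have h2 : HasFDerivAt F (fderiv ℝ F x) ((fun s : ℝ => ((s, x.2) : P)) x.1) := h.hasFDerivAt
  exact (h2.comp_hasDerivAt x.1 h1).deriv

lemma dy_eq {F : P → ℝ} {x : P} (h : DifferentiableAt ℝ F x) : dy F x = fderiv ℝ F x (0, 1) := by
  have h1 : HasDerivAt (fun s : ℝ => ((x.1, s) : P)) ((0, 1) : P) x.2 :=
    (hasDerivAt_const x.2 x.1).prodMk (hasDerivAt_id x.2)
  have h2 : HasFDerivAt F (fderiv ℝ F x) ((fun s : ℝ => ((x.1, s) : P)) x.2) := h.hasFDerivAt
  exact (h2.comp_hasDerivAt x.2 h1).deriv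

lemma dx_cont {F : P → ℝ} (h : ContDiff ℝ (⊤ : ℕ∞) F) : Continuous (dx F) := by
  have h1 : dx F = fun x => fderiv ℝ F x (1, 0) :=
    funext fun x => dx_eq (h.differentiable (by simp) x)
  rw [h1]
  exact (h.continuous_fderiv (by simp)).clm_apply continuous_const

lemma dy_cont {F : P → ℝ} (h : ContDiff ℝ (⊤ : ℕ∞) F) : Continuous (dy F) := by
  have h1 : dy F = fun x => fderiv ℝ F x (0, 1) :=
    funext fun x => dy_eq (h.differentiable (by simp) x)
  rw [h1]
  exact (h.continuous_fderiv (by simp)).clm_apply continuous_const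

lemma eta_zero {s : ℝ} (hs : s ≤ 1) : etaT s = 0 := by
  unfold etaT
  rw [smoothTransition.zero_of_nonpos (by linarith)]
  simp

lemma eta_smooth : ContDiff ℝ (⊤ : ℕ∞) etaT := by
  rw [contDiff_iff_contDiffAt]
  intro s
  rcases lt_or_ge s 1 with h | h
  · have h1 : etaT =ᶠ[𝓝 s] fun _ => 0 := by
      filter_upwards [Iio_mem_nhds h] with u hu
      exact eta_zero (le_of_lt hu)
    exact contDiffAt_const.congr_of_eventuallyEq h1
  · unfold etaT
    refine ContDiffAt.div ?_ contDiffAt_id (by show s ≠ 0; linarith)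
    exact contDiffAt_const.mul (smoothTransition.contDiff.comp (by fun_prop)).contDiffAt

lemma eta_bound {s : ℝ} (hs : 1 ≤ s) : |etaT s| ≤ 3 / 2 / s := by
  unfold etaT
  rw [abs_div, abs_mul, abs_of_pos (by linarith : 0 < s), abs_of_nonneg (smoothTransition.nonneg _)]
  rw [show |-(3 / 2 : ℝ)| = 3 / 2 by norm_num [abs_of_pos]]
  gcongr
  have := smoothTransition.le_one (s - 1)
  linarith

lemma deta_smooth : ContDiff ℝ (⊤ : ℕ∞) (deriv etaT) :=
  (contDiff_infty_iff_deriv.1 eta_smooth).2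

lemma EE_smooth : ContDiff ℝ (⊤ : ℕ∞) EE := by
  unfold EE
  fun_prop

/-- The first potential. -/
def A (Φ : P → ℝ) (p : P) : ℝ := 2 * etaT p.1 * cos (2 * p.2) * Φ p

/-- The second potential. -/
def B (Φ : P → ℝ) (p : P) : ℝ := -(deriv etaT p.1 * sin (2 * p.2) * Φ p)

lemma A_smooth {Φ : P → ℝ} (h : ContDiff ℝ (⊤ : ℕ∞) Φ) : ContDiff ℝ (⊤ : ℕ∞) (A Φ) := by
  unfold A
  have := eta_smooth
  exact ((contDiff_const.mul (this.comp contDiff_fst)).mul (by fun_prop)).mul h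

lemma B_smooth {Φ : P → ℝ} (h : ContDiff ℝ (⊤ : ℕ∞) Φ) : ContDiff ℝ (⊤ : ℕ∞) (B Φ) := by
  unfold B
  exact (((deta_smooth.comp contDiff_fst).mul (by fun_prop)).mul h).neg

/-- The integrand in the strip. -/
def G (Φ : P → ℝ) (p : P) : ℝ :=
  2 * etaT p.1 * cos (2 * p.2) * dx Φ p - deriv etaT p.1 * sin (2 * p.2) * dy Φ p

lemma div_eq {Φ : P → ℝ} (h : ContDiff ℝ (⊤ : ℕ∞) Φ) (p : P) :
    fderiv ℝ (A Φ) p (1, 0) + fderiv ℝ (B Φ) p (0, 1) = G Φ p := by
  rw [← dx_eq ((A_smooth h).differentiable (by simp) p),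
    ← dy_eq ((B_smooth h).differentiable (by simp) p)]
  have hΦ := h.differentiable (by simp) p
  have h1 : HasDerivAt (fun s : ℝ => Φ (s, p.2)) (dx Φ p) p.1 := by
    have h1 : HasDerivAt (fun s : ℝ => ((s, p.2) : P)) ((1, 0) : P) p.1 :=
      (hasDerivAt_id p.1).prodMk (hasDerivAt_const p.1 p.2)
    have h2 : HasFDerivAt Φ (fderiv ℝ Φ p) ((fun s : ℝ => ((s, p.2) : P)) p.1) := hΦ.hasFDerivAt
    rw [dx_eq hΦ]
    exact h2.comp_hasDerivAt p.1 h1
  have h2 : HasDerivAt (fun s : ℝ => Φ (p.1, s)) (dy Φ p) p.2 := by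
    have h1 : HasDerivAt (fun s : ℝ => ((p.1, s) : P)) ((0, 1) : P) p.2 :=
      (hasDerivAt_const p.2 p.1).prodMk (hasDerivAt_id p.2)
    have h2 : HasFDerivAt Φ (fderiv ℝ Φ p) ((fun s : ℝ => ((p.1, s) : P)) p.2) := hΦ.hasFDerivAt
    rw [dy_eq hΦ]
    exact h2.comp_hasDerivAt p.2 h1
  have h3 : HasDerivAt etaT (deriv etaT p.1) p.1 :=
    (eta_smooth.differentiable (by simp) p.1).hasDerivAt
  have h4 : HasDerivAt (fun s : ℝ => A Φ (s, p.2))
      (2 * deriv etaT p.1 * cos (2 * p.2) * Φ p + 2 * etaT p.1 * cos (2 * p.2) * dx Φ p) p.1 := by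
    unfold A
    exact (((h3.const_mul 2).mul_const (cos (2 * p.2))).mul h1).congr_deriv (by ring)
  have h5 : HasDerivAt (fun s : ℝ => B Φ (p.1, s))
      (-(deriv etaT p.1 * (2 * cos (2 * p.2)) * Φ p + deriv etaT p.1 * sin (2 * p.2) * dy Φ p))
      p.2 := by
    unfold B
    have h6 : HasDerivAt (fun s : ℝ => sin (2 * s)) (cos (2 * p.2) * (2 * 1)) p.2 :=
      ((hasDerivAt_id p.2).const_mul 2).sin
    exact ((h6.const_mul (deriv etaT p.1)).mul h2).neg.congr_deriv (by ring)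
  have h6 : dx (A Φ) p = _ := h4.deriv
  have h7 : dy (B Φ) p = _ := h5.deriv
  rw [h6, h7]
  unfold G
  ring

/-- The integral over a box. -/
lemma box {Φ : P → ℝ} (h : ContDiff ℝ (⊤ : ℕ∞) Φ) {N : ℝ} (hN : 1 ≤ N) :
    ∫ p in Icc ((1, -π) : P) (N, π), G Φ p = ∫ θ in (-π)..π, A Φ (N, θ) := by
  have hle : ((1, -π) : P) ≤ (N, π) := ⟨hN, by simp only; linarith [pi_pos]⟩
  have hA := A_smooth h
  have hB := B_smooth h
  have hG : (fun p => fderiv ℝ (A Φ) p (1, 0) + fderiv ℝ (B Φ) p (0, 1)) = G Φ :=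
    funext fun p => div_eq h p
  have hcont : Continuous fun p => fderiv ℝ (A Φ) p (1, 0) + fderiv ℝ (B Φ) p (0, 1) :=
    ((hA.continuous_fderiv (by simp)).clm_apply continuous_const).add
      ((hB.continuous_fderiv (by simp)).clm_apply continuous_const)
  have h1 := integral_divergence_prod_Icc_of_hasFDerivAt_off_countable_of_le (A Φ) (B Φ)
    (fun p => fderiv ℝ (A Φ) p) (fun p => fderiv ℝ (B Φ) p) ((1, -π) : P) (N, π) hle ∅
    countable_empty hA.continuous.continuousOn hB.continuous.continuousOn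
    (fun x _ => (hA.differentiable (by simp) x).hasFDerivAt)
    (fun x _ => (hB.differentiable (by simp) x).hasFDerivAt)
    (hcont.continuousOn.integrableOn_compact isCompact_Icc)
  simp only [div_eq h] at h1
  rw [h1]
  have h2 : ∀ s : ℝ, B Φ (s, π) = 0 := by
    intro s
    unfold B
    simp only
    rw [Real.sin_two_pi]
    ring
  have h3 : ∀ s : ℝ, B Φ (s, -π) = 0 := by
    intro s
    unfold B
    simp only
    rw [show 2 * -π = -(2 * π) by ring, Real.sin_neg, Real.sin_two_pi]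
    ring
  have h4 : ∀ θ : ℝ, A Φ (1, θ) = 0 := by
    intro θ
    unfold A
    simp only
    rw [eta_zero le_rfl]
    ring
  simp only [h2, h3, h4]
  simp

lemma G_zero {Φ : P → ℝ} (h : ContDiff ℝ (⊤ : ℕ∞) Φ) {M : ℝ}
    (hM : ∀ p : P, 1 ≤ p.1 → |Φ p| ≤ M) (hi : IntegrableOn (G Φ) (Sp 1)) :
    ∫ p in Sp 1, G Φ p = 0 := by
  have hM0 : 0 ≤ M := (abs_nonneg _).trans (hM (1, 0) le_rfl)
  have hmono : Monotone fun n : ℕ => Icc ((1, -π) : P) ((n : ℝ) + 1, π) := by
    intro m n hmn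
    refine Icc_subset_Icc_right ⟨?_, le_rfl⟩
    have : (m : ℝ) ≤ n := by exact_mod_cast hmn
    simpa using this
  have hU : (⋃ n : ℕ, Icc ((1, -π) : P) ((n : ℝ) + 1, π)) = Ici (1 : ℝ) ×ˢ Icc (-π) π := by
    ext p
    simp only [mem_iUnion, mem_Icc, Set.mem_prod, mem_Ici]
    constructor
    · rintro ⟨n, h1, h2⟩
      exact ⟨h1.1, h1.2, h2.2⟩
    · rintro ⟨h1, h2, h3⟩
      obtain ⟨n, hn⟩ := exists_nat_ge p.1
      exact ⟨n, ⟨h1, h2⟩, ⟨by simp only; linarith, h3⟩⟩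
  have hae : (Ici (1 : ℝ) ×ˢ Icc (-π) π : Set P) =ᵐ[volume] (Sp 1 : Set P) := by
    unfold Sp
    exact Measure.set_prod_ae_eq Ioi_ae_eq_Ici.symm Ioo_ae_eq_Icc.symm
  have hi' : IntegrableOn (G Φ) (⋃ n : ℕ, Icc ((1, -π) : P) ((n : ℝ) + 1, π)) := by
    rw [hU]
    exact hi.congr_set_ae hae
  have ht := tendsto_setIntegral_of_monotone (fun n : ℕ =>
    (measurableSet_Icc : MeasurableSet (Icc ((1, -π) : P) ((n : ℝ) + 1, π)))) hmono hi'
  rw [hU, setIntegral_congr_set hae] at ht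
  have h0 : Tendsto (fun n : ℕ => ∫ p in Icc ((1, -π) : P) ((n : ℝ) + 1, π), G Φ p) atTop
      (𝓝 0) := by
    have hb : ∀ n : ℕ, ‖∫ p in Icc ((1, -π) : P) ((n : ℝ) + 1, π), G Φ p‖ ≤
        (3 * M * (2 * π)) * (1 / ((n : ℝ) + 1)) := by
      intro n
      have hn : (1 : ℝ) ≤ n + 1 := by
        have : (0 : ℝ) ≤ n := Nat.cast_nonneg n
        linarith
      rw [box h hn]
      have h1 : ∀ θ ∈ uIoc (-π) π, ‖A Φ ((n : ℝ) + 1, θ)‖ ≤ 3 / ((n : ℝ) + 1) * M := by
        intro θ _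
        unfold A
        rw [Real.norm_eq_abs, abs_mul, abs_mul, abs_mul, abs_two]
        have h2 := eta_bound hn
        have h3 := hM ((n : ℝ) + 1, θ) hn
        have h4 : 2 * |etaT ((n : ℝ) + 1)| * |cos (2 * θ)| ≤ 3 / ((n : ℝ) + 1) := by
          calc 2 * |etaT ((n : ℝ) + 1)| * |cos (2 * θ)| ≤
              2 * (3 / 2 / ((n : ℝ) + 1)) * 1 := by
                gcongr
                exact Real.abs_cos_le_one _
            _ = 3 / ((n : ℝ) + 1) := by ring
        exact mul_le_mul h4 h3 (abs_nonneg _) (by positivity)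
      have h2 := intervalIntegral.norm_integral_le_of_norm_le_const h1
      refine h2.trans (le_of_eq ?_)
      rw [show π - -π = 2 * π by ring, abs_of_nonneg (by positivity)]
      ring
    have hl : Tendsto (fun n : ℕ => (3 * M * (2 * π)) * (1 / ((n : ℝ) + 1))) atTop (𝓝 0) := by
      simpa using tendsto_one_div_add_atTop_nhds_zero_nat.const_mul (3 * M * (2 * π))
    exact squeeze_zero_norm hb hl
  exact tendsto_nhds_unique ht h0

lemma eta_meas : Measurable etaT := eta_smooth.continuous.measurable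

lemma deta_meas : Measurable (deriv etaT) := deta_smooth.continuous.measurable

lemma bb_meas : Measurable (bb etaT) := by
  have h1 := eta_meas
  have h2 := deta_meas
  have h3 : Measurable ls := by
    unfold ls rs
    fun_prop
  have h4 : Measurable rs := by
    unfold rs
    fun_prop
  have h5 : Measurable fun x : P => etaT (ls x) := h1.comp h3
  have h6 : Measurable fun x : P => deriv etaT (ls x) := h2.comp h3
  unfold bb
  fun_prop

lemma bb_zero {x : P} (hx : rs x = 0) : bb etaT x = 0 := by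
  unfold bb
  rw [hx]
  simp

lemma Dc_sub : Dc 1 ⊆ Icc ((-1, -1) : P) (1, 1) := by
  intro x hx
  have h1 : rs x < 1 := by
    refine hx.2.trans_le ?_
    have := Real.exp_le_one_iff.2 (show (-2 * 1 : ℝ) ≤ 0 by norm_num)
    exact this
  unfold rs at h1
  refine ⟨⟨?_, ?_⟩, ⟨?_, ?_⟩⟩ <;> simp only <;> nlinarith [sq_nonneg x.1, sq_nonneg x.2]

lemma Dc_meas : MeasurableSet (Dc 1) := by
  have h4 : Measurable rs := by
    unfold rs
    fun_prop
  exact (measurableSet_lt measurable_const h4).inter (measurableSet_lt h4 measurable_const)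

/-- The products are integrable on the disc. -/
lemma prod_int {f g : P → ℝ} (hf : Measurable f) (hg : Continuous g)
    (hfb : ∀ x, |f x| ≤ ‖bb etaT x‖) (hb : IntegrableOn (fun x => ‖bb etaT x‖ ^ 2) (Dc 1)) :
    IntegrableOn (fun x => f x * g x) (Dc 1) := by
  have hfin : volume (Dc 1) < ⊤ := (measure_mono Dc_sub).trans_lt isCompact_Icc.measure_lt_top
  obtain ⟨K, hK⟩ := (isCompact_Icc (a := ((-1, -1) : P)) (b := (1, 1))).exists_bound_of_continuousOn
    hg.continuousOn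
  have h1 : IntegrableOn (fun x => (1 + ‖bb etaT x‖ ^ 2) * K) (Dc 1) :=
    ((integrableOn_const hfin.ne).add hb).mul_const K
  refine Integrable.mono' h1 (hf.mul hg.measurable).aestronglyMeasurable ?_
  refine (ae_restrict_iff' Dc_meas).2 (Eventually.of_forall fun x hx => ?_)
  rw [Real.norm_eq_abs, abs_mul]
  have h2 : |g x| ≤ K := hK x (Dc_sub hx)
  have h3 : |f x| ≤ 1 + ‖bb etaT x‖ ^ 2 := by
    refine (hfb x).trans ?_
    nlinarith [sq_nonneg (‖bb etaT x‖ - 1), norm_nonneg (bb etaT x)]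
  exact mul_le_mul h3 h2 (abs_nonneg _) (by positivity)

end BPB

open BPB in
/-- **JOB BPB**. -/
theorem bpb (h : S_chn) (h1 : S_pol) (h2 : S_tra) (h3 : S_bpa) : S_bpb := by
  intro ψ hψ
  obtain ⟨-, -, -, hz, hb⟩ := h3
  have hs := hψ.1
  set φ : P → ℝ := fun x => ψ (x.1 + 1 / 2, x.2 + 1 / 2) with hφ
  have hφs : ContDiff ℝ (⊤ : ℕ∞) φ := hs.comp (by fun_prop)
  have hdx : ∀ x : P, dx ψ (x.1 + 1 / 2, x.2 + 1 / 2) = dx φ x := by
    intro x
    unfold Pool.Agent.Q61.AD.dx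
    rw [hφ]
    exact (deriv_comp_add_const (fun s => ψ (s, x.2 + 1 / 2)) (1 / 2) x.1).symm
  have hdy : ∀ x : P, dy ψ (x.1 + 1 / 2, x.2 + 1 / 2) = dy φ x := by
    intro x
    unfold Pool.Agent.Q61.AD.dy
    rw [hφ]
    exact (deriv_comp_add_const (fun s => ψ (x.1 + 1 / 2, s)) (1 / 2) x.2).symm
  have i1 : IntegrableOn (fun x => (bb etaT x).1 * dx φ x) (Dc 1) :=
    BPB.prod_int bb_meas.fst (dx_cont hφs) (fun x => norm_fst_le (bb etaT x)) hb
  have i2 : IntegrableOn (fun x => (bb etaT x).2 * dy φ x) (Dc 1) :=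
    BPB.prod_int bb_meas.snd (dy_cont hφs) (fun x => norm_snd_le (bb etaT x)) hb
  have t1 := h2 (fun x => (bb etaT x).1) (dx ψ) (by
    intro x hx
    rcases hx with hx | hx
    · rw [bb_zero hx]
      rfl
    · rw [hz x hx]
      rfl)
  have t2 := h2 (fun x => (bb etaT x).2) (dy ψ) (by
    intro x hx
    rcases hx with hx | hx
    · rw [bb_zero hx]
      rfl
    · rw [hz x hx]
      rfl)
  simp only [hdx] at t1
  simp only [hdy] at t2
  have q1 : IntegrableOn (fun x => (bP x).1 * dx ψ x) Q := t1.2.2 i1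
  have q2 : IntegrableOn (fun x => (bP x).2 * dy ψ x) Q := t2.2.2 i2
  have q3 : ∫ x in Q, (bP x).1 * dx ψ x = ∫ x in Dc 1, (bb etaT x).1 * dx φ x := t1.1
  have q4 : ∫ x in Q, (bP x).2 * dy ψ x = ∫ x in Dc 1, (bb etaT x).2 * dy φ x := t2.1
  rw [integral_add q1 q2, q3, q4, ← integral_add i1 i2, (h1 1 _).1]
  have hΦs : ContDiff ℝ (⊤ : ℕ∞) (φ ∘ EE) := hφs.comp EE_smooth
  have key : ∀ p : P, exp (-2 * p.1) * ((bb etaT (EE p)).1 * dx φ (EE p) +
      (bb etaT (EE p)).2 * dy φ (EE p)) = G (φ ∘ EE) p := by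
    intro p
    obtain ⟨-, -, c3, c4⟩ := h etaT φ ((contDiff_infty.1 hφs) 2) p
    unfold GG LL at c4
    rw [c3] at c4
    unfold G
    linarith
  simp only [key]
  have hint : IntegrableOn (G (φ ∘ EE)) (Sp 1) := by
    have h5 := (h1 1 _).2.1 (i1.add i2)
    refine h5.congr (Eventually.of_forall fun p => ?_)
    exact key p
  obtain ⟨M, hM⟩ := (isCompact_Icc (a := ((-1, -1) : P)) (b := (1, 1))).exists_bound_of_continuousOn
    hφs.continuous.continuousOn
  refine G_zero hΦs (M := M) (fun p hp => hM (EE p) ?_) hint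
  have h6 : exp (-p.1) ≤ 1 := Real.exp_le_one_iff.2 (by linarith)
  have h7 := Real.exp_pos (-p.1)
  have h8 : |exp (-p.1) * cos p.2| ≤ 1 := by
    rw [abs_mul, abs_of_pos h7]
    exact mul_le_one₀ h6 (abs_nonneg _) (Real.abs_cos_le_one _)
  have h9 : |exp (-p.1) * sin p.2| ≤ 1 := by
    rw [abs_mul, abs_of_pos h7]
    exact mul_le_one₀ h6 (abs_nonneg _) (Real.abs_sin_le_one _)
  exact ⟨⟨(abs_le.1 h8).1, (abs_le.1 h9).1⟩, ⟨(abs_le.1 h8).2, (abs_le.1 h9).2⟩⟩

end Pool.Agent.Q61.ND
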