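import Pool.Agent.Q61.ND.Stm

/-! Project ND, job NHA: test functions which see that the singular part is not in `H¹`. -/

set_option autoImplicit false

open MeasureTheory Set Filter Topology Real

noncomputable section

namespace Pool.Agent.Q61.ND

open Pool.Agent.Q61.AD (P Q Per dt dx dy lap Tst D)

namespace NHA

/-- The bump. -/
def sg (t : ℝ) : ℝ := smoothTransition (4 * t - 1) * smoothTransition (3 - 4 * t)

lemma sg_smooth : ContDiff ℝ (⊤ : ℕ∞) sg := by
  unfold sg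
  exact (smoothTransition.contDiff.comp (by fun_prop)).mul
    (smoothTransition.contDiff.comp (by fun_prop))

lemma sg_nonneg (t : ℝ) : 0 ≤ sg t :=
  mul_nonneg (smoothTransition.nonneg _) (smoothTransition.nonneg _)

lemma sg_le (t : ℝ) : sg t ≤ 1 :=
  mul_le_one₀ (smoothTransition.le_one _) (smoothTransition.nonneg _) (smoothTransition.le_one _)

lemma sg_zero {t : ℝ} (h : t ∉ Ioo (1 / 4 : ℝ) (3 / 4)) : sg t = 0 := by
  unfold sg
  by_cases h1 : t ≤ 1 / 4
  · rw [smoothTransition.zero_of_nonpos (by linarith), zero_mul]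
  · rw [smoothTransition.zero_of_nonpos (x := 3 - 4 * t), mul_zero]
    have : 3 / 4 ≤ t := by
      by_contra h2
      exact h ⟨by linarith, by linarith⟩
    linarith

lemma dsg_zero {t : ℝ} (h : t ∉ Icc (1 / 4 : ℝ) (3 / 4)) : deriv sg t = 0 := by
  have h1 : sg =ᶠ[𝓝 t] fun _ => 0 := by
    filter_upwards [isClosed_Icc.isOpen_compl.mem_nhds h] with u hu
    exact sg_zero fun h' => hu ⟨h'.1.le, h'.2.le⟩
  rw [h1.deriv_eq]
  simp

lemma sg_diff : Differentiable ℝ sg := sg_smooth.differentiable (by simp)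

lemma dsg_cont : Continuous (deriv sg) := sg_smooth.continuous_deriv (by simp)

lemma sg_pos : 0 < ∫ t in (0 : ℝ)..1, sg t := by
  refine intervalIntegral.integral_pos one_pos sg_smooth.continuous.continuousOn
    (fun x _ => sg_nonneg x) ⟨1 / 2, ⟨by norm_num, by norm_num⟩, ?_⟩
  unfold sg
  exact mul_pos (smoothTransition.pos_of_pos (by norm_num)) (smoothTransition.pos_of_pos
    (by norm_num))

/-- The test functions. -/
def rho (n : ℕ) (x : P) : ℝ := sg (ls x - n) * ((x.1 ^ 2 - x.2 ^ 2) / rs x)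

lemma rs_EE (p : P) : rs (EE p) = exp (-2 * p.1) := by
  unfold rs EE
  have h : exp (-2 * p.1) = exp (-p.1) * exp (-p.1) := by
    rw [← Real.exp_add]
    ring_nf
  rw [h]
  simp only
  linear_combination (exp (-p.1)) ^ 2 * Real.sin_sq_add_cos_sq p.2

lemma ls_EE (p : P) : ls (EE p) = p.1 := by
  unfold ls
  rw [rs_EE, Real.log_exp]
  ring

lemma rho_EE (n : ℕ) : rho n ∘ EE = fun p : P => sg (p.1 - n) * cos (2 * p.2) := by
  funext p
  show rho n (EE p) = _
  unfold rho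
  rw [ls_EE, rs_EE]
  congr 1
  have h : exp (-2 * p.1) = exp (-p.1) * exp (-p.1) := by
    rw [← Real.exp_add]
    ring_nf
  have h0 := Real.exp_pos (-p.1)
  rw [h]
  unfold EE
  simp only
  rw [div_eq_iff (by positivity), Real.cos_two_mul]
  linear_combination (-(exp (-p.1)) ^ 2) * Real.sin_sq_add_cos_sq p.2

lemma dx_rho (n : ℕ) (p : P) : dx (rho n ∘ EE) p = deriv sg (p.1 - n) * cos (2 * p.2) := by
  rw [rho_EE]
  unfold Pool.Agent.Q61.AD.dx
  simp only
  have h : HasDerivAt (fun s : ℝ => sg (s - n) * cos (2 * p.2))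
      (deriv sg (p.1 - n) * cos (2 * p.2)) p.1 := by
    have h1 : HasDerivAt (fun s : ℝ => sg (s - n)) (deriv sg (p.1 - n)) p.1 := by
      have := (sg_diff (p.1 - n)).hasDerivAt.comp_sub_const p.1 (n : ℝ)
      exact this
    exact h1.mul_const _
  exact h.deriv

lemma dy_rho (n : ℕ) (p : P) : dy (rho n ∘ EE) p = sg (p.1 - n) * (-2 * sin (2 * p.2)) := by
  rw [rho_EE]
  unfold Pool.Agent.Q61.AD.dy
  simp only
  have h : HasDerivAt (fun s : ℝ => sg (p.1 - n) * cos (2 * s))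
      (sg (p.1 - n) * (-2 * sin (2 * p.2))) p.2 := by
    have h1 : HasDerivAt (fun s : ℝ => cos (2 * s)) (-sin (2 * p.2) * (2 * 1)) p.2 :=
      ((hasDerivAt_id p.2).const_mul 2).cos
    exact (h1.const_mul (sg (p.1 - n))).congr_deriv (by ring)
  exact h.deriv

lemma ls_of_pos {x : P} (hx : 0 < rs x) {a : ℝ} (h : rs x < exp (-2 * a)) : a < ls x := by
  unfold ls
  have := (Real.log_lt_iff_lt_exp hx).2 h
  linarith

lemma ls_zero {x : P} (hx : rs x = 0) : ls x = 0 := by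
  unfold ls
  rw [hx, Real.log_zero, mul_zero]

lemma rs_nonneg (x : P) : 0 ≤ rs x := by
  unfold rs
  positivity

lemma rho_near {n : ℕ} (hn : 1 ≤ n) {x : P} (h : rs x < exp (-2 * (n + 1))) : rho n x = 0 := by
  unfold rho
  rw [sg_zero, zero_mul]
  intro h1
  rcases (rs_nonneg x).eq_or_lt with h2 | h2
  · rw [ls_zero h2.symm] at h1
    have : (1 : ℝ) ≤ n := by exact_mod_cast hn
    linarith [h1.1]
  · have := ls_of_pos h2 h
    linarith [h1.2]

lemma rs_smooth : ContDiff ℝ (⊤ : ℕ∞) rs := by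
  unfold rs
  fun_prop

lemma rho_smooth {n : ℕ} (hn : 1 ≤ n) : ContDiff ℝ (⊤ : ℕ∞) (rho n) := by
  rw [contDiff_iff_contDiffAt]
  intro x
  rcases (rs_nonneg x).eq_or_lt with h2 | h2
  · have h1 : rho n =ᶠ[𝓝 x] fun _ => 0 := by
      have hop : IsOpen {y : P | rs y < exp (-2 * (n + 1))} :=
        isOpen_lt rs_smooth.continuous continuous_const
      filter_upwards [hop.mem_nhds (show rs x < exp (-2 * (n + 1)) by
        rw [← h2]; exact Real.exp_pos _)] with y hy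
      exact rho_near hn hy
    exact contDiffAt_const.congr_of_eventuallyEq h1
  · unfold rho
    refine ContDiffAt.mul ?_ ?_
    · refine sg_smooth.contDiffAt.comp x ?_
      unfold ls
      exact (contDiffAt_const.mul (rs_smooth.contDiffAt.log h2.ne')).sub contDiffAt_const
    · exact ContDiffAt.div (by fun_prop) rs_smooth.contDiffAt h2.ne'

lemma rho_supp {n : ℕ} (hn : 1 ≤ n) {x : P} (h : rho n x ≠ 0) :
    rs x ∈ Icc (exp (-2 * (n + 1))) (exp (-2 * n)) := by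
  have h1 : sg (ls x - n) ≠ 0 := fun h' => h (by unfold rho; rw [h', zero_mul])
  have h2 : ls x - n ∈ Ioo (1 / 4 : ℝ) (3 / 4) := by
    by_contra h'
    exact h1 (sg_zero h')
  refine ⟨?_, ?_⟩
  · by_contra h'
    exact h (rho_near hn (not_le.1 h'))
  · by_contra h'
    have h3 : 0 < rs x := lt_trans (Real.exp_pos _) (not_le.1 h')
    have h4 : -2 * (n : ℝ) < Real.log (rs x) := (Real.lt_log_iff_exp_lt h3).2 (not_le.1 h')
    have h5 : ls x = -(1 / 2) * Real.log (rs x) := rfl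
    linarith [h2.1]

/-- The `x`-derivative in the strip. -/
lemma dx_EE (h : S_chn) {n : ℕ} (hn : 1 ≤ n) (p : P) :
    exp (-2 * p.1) * dx (rho n) (EE p) = -exp (-p.1) * (cos p.2 *
      (deriv sg (p.1 - n) * cos (2 * p.2)) + sin p.2 * (sg (p.1 - n) * (-2 * sin (2 * p.2)))) := by
  have h1 := h (fun _ => 0) (rho n) ((contDiff_infty.1 (rho_smooth hn)) 2) p
  have h2 := h1.1
  have h3 := h1.2.1
  rw [dx_rho] at h2
  rw [dy_rho] at h3
  rw [h2, h3]
  have h4 : exp (-2 * p.1) = exp (-p.1) * exp (-p.1) := by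
    rw [← Real.exp_add]
    ring_nf
  rw [h4]
  unfold EE
  simp only
  linear_combination (-(exp (-p.1) ^ 2 * dx (rho n) (exp (-p.1) * cos p.2, exp (-p.1) * sin p.2))) *
    Real.sin_sq_add_cos_sq p.2

lemma dx_EE' (h : S_chn) {n : ℕ} (hn : 1 ≤ n) (p : P) :
    dx (rho n) (EE p) = -exp p.1 * (cos p.2 *
      (deriv sg (p.1 - n) * cos (2 * p.2)) + sin p.2 * (sg (p.1 - n) * (-2 * sin (2 * p.2)))) := by
  have h1 := dx_EE h hn p
  have h2 : exp (-2 * p.1) * (exp p.1 * exp p.1) = 1 := by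
    rw [← Real.exp_add, ← Real.exp_add]
    ring_nf
    exact Real.exp_zero
  have h3 : exp (-p.1) * exp p.1 = 1 := by
    rw [← Real.exp_add]
    ring_nf
    exact Real.exp_zero
  calc dx (rho n) (EE p) = (exp p.1 * exp p.1) * (exp (-2 * p.1) * dx (rho n) (EE p)) := by
        linear_combination (-dx (rho n) (EE p)) * h2
    _ = _ := by
        rw [h1]
        linear_combination (-exp p.1 * (cos p.2 *
          (deriv sg (p.1 - n) * cos (2 * p.2)) + sin p.2 * (sg (p.1 - n) * (-2 * sin (2 * p.2))))) *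
          h3

lemma U0c_EE (p : P) : U0c (EE p) = exp p.1 * (p.1 ^ (-(3 / 4) : ℝ) * cos p.2 +
    3 / 16 * p.1 ^ (-(7 / 4) : ℝ) * (4 * cos p.2 ^ 3 - 3 * cos p.2)) := by
  unfold U0c
  rw [ls_EE, rs_EE]
  have h1 : √(exp (-2 * p.1)) = exp (-p.1) := by
    rw [show -2 * p.1 = -p.1 + -p.1 by ring, Real.exp_add, Real.sqrt_mul_self (Real.exp_pos _).le]
  have h2 : (EE p).1 / exp (-p.1) = cos p.2 := by
    unfold EE
    simp only
    rw [mul_comm, mul_div_assoc, div_self (Real.exp_pos _).ne', mul_one]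
  rw [h1, h2, one_div, Real.exp_neg, inv_inv]

/-- `∫ (a + b cos 2θ + c cos 4θ + d cos 6θ) = 2 π a`. -/
lemma trig (a b c d : ℝ) :
    ∫ θ in (-π)..π, (a + b * cos (2 * θ) + c * cos (4 * θ) + d * cos (6 * θ)) = 2 * π * a := by
  have hd : ∀ θ : ℝ, HasDerivAt (fun θ : ℝ => a * θ + b / 2 * sin (2 * θ) + c / 4 * sin (4 * θ) +
      d / 6 * sin (6 * θ)) (a + b * cos (2 * θ) + c * cos (4 * θ) + d * cos (6 * θ)) θ := by
    intro θ
    have h1 : ∀ k : ℝ, HasDerivAt (fun θ : ℝ => sin (k * θ)) (cos (k * θ) * (k * 1)) θ :=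
      fun k => ((hasDerivAt_id θ).const_mul k).sin
    have h2 := ((((hasDerivAt_id θ).const_mul a).add ((h1 2).const_mul (b / 2))).add
      ((h1 4).const_mul (c / 4))).add ((h1 6).const_mul (d / 6))
    exact h2.congr_deriv (by ring)
  rw [intervalIntegral.integral_eq_sub_of_hasDerivAt (fun θ _ => hd θ)
    (Continuous.intervalIntegrable (by fun_prop) _ _)]
  have e2 : sin (2 * π) = 0 := by exact_mod_cast Real.sin_nat_mul_pi 2
  have e4 : sin (4 * π) = 0 := by exact_mod_cast Real.sin_nat_mul_pi 4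
  have e6 : sin (6 * π) = 0 := by exact_mod_cast Real.sin_nat_mul_pi 6
  rw [mul_neg, mul_neg, mul_neg, mul_neg, Real.sin_neg, Real.sin_neg, Real.sin_neg, e2, e4, e6]
  ring

lemma cos_four (θ : ℝ) : cos (4 * θ) = 2 * cos (2 * θ) ^ 2 - 1 := by
  rw [← Real.cos_two_mul]
  ring_nf

lemma cos_six (θ : ℝ) : cos (6 * θ) = 4 * cos (2 * θ) ^ 3 - 3 * cos (2 * θ) := by
  rw [← Real.cos_three_mul]
  ring_nf

lemma i1 : ∫ θ in Ioo (-π) π, cos θ * (cos θ * cos (2 * θ)) = π / 2 := by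
  rw [← integral_Ioc_eq_integral_Ioo, ← intervalIntegral.integral_of_le (by linarith [pi_pos])]
  rw [show π / 2 = 2 * π * (1 / 4) by ring, ← trig (1 / 4) (1 / 2) (1 / 4) 0]
  refine intervalIntegral.integral_congr fun θ _ => ?_
  rw [cos_four, Real.cos_two_mul]
  ring

lemma i2 : ∫ θ in Ioo (-π) π, (4 * cos θ ^ 3 - 3 * cos θ) * (cos θ * cos (2 * θ)) = π / 2 := by
  rw [← integral_Ioc_eq_integral_Ioo, ← intervalIntegral.integral_of_le (by linarith [pi_pos])]
  rw [show π / 2 = 2 * π * (1 / 4) by ring, ← trig (1 / 4) (1 / 4) (1 / 4) (1 / 4)]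
  refine intervalIntegral.integral_congr fun θ _ => ?_
  rw [cos_four, cos_six, Real.cos_two_mul]
  ring

lemma i3 : ∫ θ in Ioo (-π) π, cos θ * (sin θ * sin (2 * θ)) = π / 2 := by
  rw [← integral_Ioc_eq_integral_Ioo, ← intervalIntegral.integral_of_le (by linarith [pi_pos])]
  rw [show π / 2 = 2 * π * (1 / 4) by ring, ← trig (1 / 4) 0 (-1 / 4) 0]
  refine intervalIntegral.integral_congr fun θ _ => ?_
  rw [cos_four, Real.cos_two_mul, Real.sin_two_mul]
  linear_combination (2 * cos θ ^ 2) * Real.sin_sq_add_cos_sq θ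

lemma i4 : ∫ θ in Ioo (-π) π, (4 * cos θ ^ 3 - 3 * cos θ) * (sin θ * sin (2 * θ)) = -(π / 2) := by
  rw [← integral_Ioc_eq_integral_Ioo, ← intervalIntegral.integral_of_le (by linarith [pi_pos])]
  rw [show -(π / 2) = 2 * π * (-1 / 4) by ring, ← trig (-1 / 4) (1 / 4) (1 / 4) (-1 / 4)]
  refine intervalIntegral.integral_congr fun θ _ => ?_
  rw [cos_four, cos_six, Real.cos_two_mul, Real.sin_two_mul]
  linear_combination (2 * cos θ * (4 * cos θ ^ 3 - 3 * cos θ)) * Real.sin_sq_add_cos_sq θ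

/-- The box. -/
def Bx (n : ℕ) : Set P := Ioc (n : ℝ) (n + 1) ×ˢ Ioo (-π) π

lemma Bx_sub {n : ℕ} (hn : 23 ≤ n) : Bx n ⊆ Sp 21 := by
  have : (23 : ℝ) ≤ n := by exact_mod_cast hn
  refine Set.prod_mono (fun s hs => ?_) le_rfl
  show 21 < s
  linarith [hs.1]

lemma to_Bx {n : ℕ} (hn : 23 ≤ n) {F G : P → ℝ} (h0 : ∀ p ∈ Sp 21, F p = G p)
    (h : ∀ p : P, p.1 - n ∉ Icc (1 / 4 : ℝ) (3 / 4) → G p = 0) :
    ∫ p in Sp 21, F p = ∫ p in Bx n, G p := by
  have hm : MeasurableSet (Sp 21) := measurableSet_Ioi.prod measurableSet_Ioo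
  rw [setIntegral_congr_fun hm h0]
  refine (setIntegral_eq_of_subset_of_forall_sdiff_eq_zero hm (Bx_sub hn) ?_)
  intro p hp
  apply h
  intro h1
  apply hp.2
  exact ⟨⟨by linarith [h1.1], by linarith [h1.2]⟩, hp.1.2⟩

lemma bound {n : ℕ} {G : P → ℝ} {M : ℝ} (h : ∀ p ∈ Bx n, |G p| ≤ M) :
    ∫ p in Bx n, G p ≤ M * (2 * π) := by
  have hvol : (volume (Bx n)) = ENNReal.ofReal (2 * π) := by
    unfold Bx
    rw [Measure.volume_eq_prod, Measure.prod_prod, Real.volume_Ioc, Real.volume_Ioo]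
    rw [show (n : ℝ) + 1 - n = 1 by ring, ENNReal.ofReal_one, one_mul]
    congr 1
    ring
  have h1 := norm_setIntegral_le_of_norm_le_const (μ := volume) (s := Bx n) (f := G) (C := M)
    (by rw [hvol]; exact ENNReal.ofReal_lt_top) (fun p hp => h p hp)
  refine (le_abs_self _).trans (h1.trans (le_of_eq ?_))
  rw [Measure.real, hvol, ENNReal.toReal_ofReal (by positivity)]

lemma prod_int {n : ℕ} {f g : ℝ → ℝ} (hf : ContinuousOn f (Icc (n : ℝ) (n + 1)))
    (hg : Continuous g) : IntegrableOn (fun p : P => f p.1 * g p.2) (Bx n) := by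
  have h1 : IntegrableOn f (Ioc (n : ℝ) (n + 1)) :=
    (hf.integrableOn_compact isCompact_Icc).mono_set Ioc_subset_Icc_self
  have h2 : IntegrableOn g (Ioo (-π) π) := (hg.integrableOn_Icc).mono_set Ioo_subset_Icc_self
  unfold Bx IntegrableOn
  rw [Measure.volume_eq_prod, ← Measure.prod_restrict]
  exact Integrable.mul_prod h1 h2

lemma prod_eq {n : ℕ} (f g : ℝ → ℝ) : ∫ p in Bx n, f p.1 * g p.2 =
    (∫ s in (n : ℝ)..(n + 1), f s) * ∫ θ in Ioo (-π) π, g θ := by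
  unfold Bx
  rw [Measure.volume_eq_prod, setIntegral_prod_mul, intervalIntegral.integral_of_le (by linarith)]

lemma rpow_cont (n : ℕ) (hn : 1 ≤ n) (e : ℝ) :
    ContinuousOn (fun s : ℝ => s ^ e) (Icc (n : ℝ) (n + 1)) := by
  have : (1 : ℝ) ≤ n := by exact_mod_cast hn
  refine ContinuousOn.rpow_const continuousOn_id fun s hs => Or.inl ?_
  have h1 := hs.1
  show s ≠ 0
  linarith

lemma k_deriv {s : ℝ} (hs : 0 < s) :
    HasDerivAt (fun s : ℝ => s ^ (-(3 / 4) : ℝ) + 3 / 16 * s ^ (-(7 / 4) : ℝ))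
      (-((3 / 4) * s ^ (-(7 / 4) : ℝ) + 21 / 64 * s ^ (-(11 / 4) : ℝ))) s := by
  have h1 := Real.hasDerivAt_rpow_const (x := s) (p := (-(3 / 4) : ℝ)) (Or.inl hs.ne')
  have h2 := Real.hasDerivAt_rpow_const (x := s) (p := (-(7 / 4) : ℝ)) (Or.inl hs.ne')
  refine (h1.add (h2.const_mul (3 / 16))).congr_deriv ?_
  rw [show (-(3 / 4) : ℝ) - 1 = -(7 / 4) by norm_num, show (-(7 / 4) : ℝ) - 1 = -(11 / 4) by norm_num]
  ring

lemma dsg_int (n : ℕ) : Continuous fun s : ℝ => deriv sg (s - n) :=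
  dsg_cont.comp (continuous_id.sub continuous_const)

lemma sg_int (n : ℕ) : Continuous fun s : ℝ => sg (s - n) :=
  sg_smooth.continuous.comp (continuous_id.sub continuous_const)

lemma byparts {n : ℕ} (hn : 1 ≤ n) :
    ∫ s in (n : ℝ)..(n + 1), (s ^ (-(3 / 4) : ℝ) + 3 / 16 * s ^ (-(7 / 4) : ℝ)) * deriv sg (s - n) =
      ∫ s in (n : ℝ)..(n + 1),
        ((3 / 4) * s ^ (-(7 / 4) : ℝ) + 21 / 64 * s ^ (-(11 / 4) : ℝ)) * sg (s - n) := by
  have hn1 : (1 : ℝ) ≤ n := by exact_mod_cast hn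
  have hu : uIcc (n : ℝ) (n + 1) = Icc (n : ℝ) (n + 1) := uIcc_of_le (by linarith)
  have h1 := intervalIntegral.integral_mul_deriv_eq_deriv_mul (a := (n : ℝ)) (b := (n : ℝ) + 1)
    (u := fun s : ℝ => s ^ (-(3 / 4) : ℝ) + 3 / 16 * s ^ (-(7 / 4) : ℝ))
    (u' := fun s => -((3 / 4) * s ^ (-(7 / 4) : ℝ) + 21 / 64 * s ^ (-(11 / 4) : ℝ)))
    (v := fun s => sg (s - n)) (v' := fun s => deriv sg (s - n))
    (fun x hx => k_deriv (by rw [hu] at hx; linarith [hx.1]))
    (fun x _ => (sg_diff (x - n)).hasDerivAt.comp_sub_const x (n : ℝ))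
    (ContinuousOn.intervalIntegrable (by
      rw [hu]
      exact ((continuousOn_const.mul (rpow_cont n hn _)).add
        (continuousOn_const.mul (rpow_cont n hn _))).neg))
    ((dsg_int n).intervalIntegrable _ _)
  rw [h1]
  have h2 : sg ((n : ℝ) + 1 - n) = 0 := sg_zero (by intro h; linarith [h.2])
  have h3 : sg ((n : ℝ) - n) = 0 := sg_zero (by intro h; linarith [h.1])
  rw [h2, h3, mul_zero, mul_zero, sub_zero, zero_sub, ← intervalIntegral.integral_neg]
  refine intervalIntegral.integral_congr fun s _ => ?_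
  ring

lemma four {n : ℕ} {f1 f2 f3 f4 : P → ℝ} (c1 : IntegrableOn f1 (Bx n))
    (c2 : IntegrableOn f2 (Bx n)) (c3 : IntegrableOn f3 (Bx n)) (c4 : IntegrableOn f4 (Bx n)) :
    ∫ p in Bx n, (f1 p + f2 p + f3 p + f4 p) = (∫ p in Bx n, f1 p) + (∫ p in Bx n, f2 p) +
      (∫ p in Bx n, f3 p) + ∫ p in Bx n, f4 p := by
  have e1 := integral_add ((c1.add c2).add c3) c4
  have e2 := integral_add (c1.add c2) c3
  have e3 := integral_add c1 c2
  simp only [Pi.add_apply] at e1 e2 e3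
  rw [e1, e2, e3]

lemma ptw {n : ℕ} (hn : 23 ≤ n) {s : ℝ} (hs : s ∈ Icc (n : ℝ) (n + 1)) :
    1 / 2 * (n : ℝ) ^ (-(3 / 4) : ℝ) ≤ 2 * s ^ (-(3 / 4) : ℝ) - 3 / 8 * s ^ (-(7 / 4) : ℝ) -
      ((3 / 4) * s ^ (-(7 / 4) : ℝ) + 21 / 64 * s ^ (-(11 / 4) : ℝ)) := by
  have hn1 : (23 : ℝ) ≤ n := by exact_mod_cast hn
  have hs0 : 0 < s := by linarith [hs.1]
  have h7 : s ^ (-(7 / 4) : ℝ) = s ^ (-(3 / 4) : ℝ) * s⁻¹ := by
    rw [← Real.rpow_neg_one, ← Real.rpow_add hs0]
    norm_num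
  have h11 : s ^ (-(11 / 4) : ℝ) = s ^ (-(3 / 4) : ℝ) * (s⁻¹ * s⁻¹) := by
    rw [← Real.rpow_neg_one, ← Real.rpow_add hs0, ← Real.rpow_add hs0]
    norm_num
  have hpos : 0 < s ^ (-(3 / 4) : ℝ) := Real.rpow_pos_of_pos hs0 _
  have hinv : s⁻¹ ≤ 1 / 23 := by
    rw [inv_le_comm₀ hs0 (by norm_num)]
    linarith [hs.1]
  have hinv0 : 0 < s⁻¹ := inv_pos.2 hs0
  have h1 : s ^ (-(3 / 4) : ℝ) ≤ 2 * s ^ (-(3 / 4) : ℝ) - 3 / 8 * s ^ (-(7 / 4) : ℝ) -
      ((3 / 4) * s ^ (-(7 / 4) : ℝ) + 21 / 64 * s ^ (-(11 / 4) : ℝ)) := by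
    rw [h7, h11]
    have h2 : s⁻¹ * s⁻¹ ≤ 1 / 23 := by nlinarith
    nlinarith [mul_le_mul_of_nonneg_left hinv hpos.le, mul_le_mul_of_nonneg_left h2 hpos.le]
  refine le_trans ?_ h1
  have h3 : ((2 : ℝ) * n) ^ (-(3 / 4) : ℝ) ≤ s ^ (-(3 / 4) : ℝ) :=
    Real.rpow_le_rpow_of_nonpos hs0 (by linarith [hs.2]) (by norm_num)
  refine le_trans ?_ h3
  rw [Real.mul_rpow (by norm_num) (by linarith)]
  refine mul_le_mul_of_nonneg_right ?_ (Real.rpow_nonneg (by linarith) _)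
  have h4 : (2 : ℝ) ^ (-1 : ℝ) ≤ 2 ^ (-(3 / 4) : ℝ) :=
    Real.rpow_le_rpow_of_exponent_le (by norm_num) (by norm_num)
  rw [Real.rpow_neg_one] at h4
  linarith

end NHA

open NHA in
/-- **JOB NHA**. -/
theorem nha (h : S_chn) (h1 : S_pol) : S_nha := by
  obtain ⟨K, hK⟩ := (isCompact_Icc (a := (0 : ℝ)) (b := 1)).exists_bound_of_continuousOn
    dsg_cont.continuousOn
  have hK0 : 0 ≤ K := (norm_nonneg _).trans (hK 0 ⟨le_rfl, zero_le_one⟩)
  refine ⟨rho, π / 4 * ∫ t in (0 : ℝ)..1, sg t, (1 + (K + 2) ^ 2) * (2 * π),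
    mul_pos (by positivity) sg_pos, fun n hn => ⟨rho_smooth (by omega), fun x hx =>
      rho_supp (by omega) hx, ?_, ?_, ?_⟩⟩
  · rw [(h1 21 _).1]
    have hn1 : 1 ≤ n := by omega
    have hn23 : (23 : ℝ) ≤ n := by exact_mod_cast hn
    have e1 : ∫ p in Sp 21, exp (-2 * p.1) * (U0c (EE p) * dx (rho n) (EE p)) =
        ∫ p in Bx n, (((-(p.1 ^ (-(3 / 4) : ℝ) * deriv sg (p.1 - n))) *
            (cos p.2 * (cos p.2 * cos (2 * p.2))) +
          (-(3 / 16 * p.1 ^ (-(7 / 4) : ℝ) * deriv sg (p.1 - n))) *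
            ((4 * cos p.2 ^ 3 - 3 * cos p.2) * (cos p.2 * cos (2 * p.2)))) +
          (2 * p.1 ^ (-(3 / 4) : ℝ) * sg (p.1 - n)) * (cos p.2 * (sin p.2 * sin (2 * p.2)))) +
          (3 / 8 * p.1 ^ (-(7 / 4) : ℝ) * sg (p.1 - n)) *
            ((4 * cos p.2 ^ 3 - 3 * cos p.2) * (sin p.2 * sin (2 * p.2))) := by
      refine to_Bx hn (fun p _ => ?_) (fun p hp => ?_)
      · have h2 := dx_EE h hn1 p
        have h3 : exp (-p.1) * exp p.1 = 1 := by
          rw [← Real.exp_add]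
          ring_nf
          exact Real.exp_zero
        rw [U0c_EE]
        calc exp (-2 * p.1) * (exp p.1 * (p.1 ^ (-(3 / 4) : ℝ) * cos p.2 +
              3 / 16 * p.1 ^ (-(7 / 4) : ℝ) * (4 * cos p.2 ^ 3 - 3 * cos p.2)) *
              dx (rho n) (EE p)) = (exp p.1 * (p.1 ^ (-(3 / 4) : ℝ) * cos p.2 +
              3 / 16 * p.1 ^ (-(7 / 4) : ℝ) * (4 * cos p.2 ^ 3 - 3 * cos p.2))) *
              (exp (-2 * p.1) * dx (rho n) (EE p)) := by ring
          _ = _ := by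
            rw [h2]
            linear_combination (-(p.1 ^ (-(3 / 4) : ℝ) * cos p.2 +
              3 / 16 * p.1 ^ (-(7 / 4) : ℝ) * (4 * cos p.2 ^ 3 - 3 * cos p.2)) * (cos p.2 *
              (deriv sg (p.1 - n) * cos (2 * p.2)) + sin p.2 * (sg (p.1 - n) *
              (-2 * sin (2 * p.2))))) * h3
      · have h2 : sg (p.1 - n) = 0 := sg_zero fun h' => hp ⟨h'.1.le, h'.2.le⟩
        rw [h2, dsg_zero hp]
        ring
    rw [e1]
    have c1 := prod_int (n := n) (f := fun s => -(s ^ (-(3 / 4) : ℝ) * deriv sg (s - n)))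
      (g := fun θ => cos θ * (cos θ * cos (2 * θ)))
      ((rpow_cont n hn1 _).mul (dsg_int n).continuousOn).neg (by fun_prop)
    have c2 := prod_int (n := n) (f := fun s => -(3 / 16 * s ^ (-(7 / 4) : ℝ) * deriv sg (s - n)))
      (g := fun θ => (4 * cos θ ^ 3 - 3 * cos θ) * (cos θ * cos (2 * θ)))
      ((continuousOn_const.mul (rpow_cont n hn1 _)).mul (dsg_int n).continuousOn).neg (by fun_prop)
    have c3 := prod_int (n := n) (f := fun s => 2 * s ^ (-(3 / 4) : ℝ) * sg (s - n))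
      (g := fun θ => cos θ * (sin θ * sin (2 * θ)))
      ((continuousOn_const.mul (rpow_cont n hn1 _)).mul (sg_int n).continuousOn) (by fun_prop)
    have c4 := prod_int (n := n) (f := fun s => 3 / 8 * s ^ (-(7 / 4) : ℝ) * sg (s - n))
      (g := fun θ => (4 * cos θ ^ 3 - 3 * cos θ) * (sin θ * sin (2 * θ)))
      ((continuousOn_const.mul (rpow_cont n hn1 _)).mul (sg_int n).continuousOn) (by fun_prop)
    have d1 := prod_eq (n := n) (fun s => -(s ^ (-(3 / 4) : ℝ) * deriv sg (s - n)))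
      (fun θ => cos θ * (cos θ * cos (2 * θ)))
    have d2 := prod_eq (n := n) (fun s => -(3 / 16 * s ^ (-(7 / 4) : ℝ) * deriv sg (s - n)))
      (fun θ => (4 * cos θ ^ 3 - 3 * cos θ) * (cos θ * cos (2 * θ)))
    have d3 := prod_eq (n := n) (fun s => 2 * s ^ (-(3 / 4) : ℝ) * sg (s - n))
      (fun θ => cos θ * (sin θ * sin (2 * θ)))
    have d4 := prod_eq (n := n) (fun s => 3 / 8 * s ^ (-(7 / 4) : ℝ) * sg (s - n))
      (fun θ => (4 * cos θ ^ 3 - 3 * cos θ) * (sin θ * sin (2 * θ)))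
    rw [i1] at d1
    rw [i2] at d2
    rw [i3] at d3
    rw [i4] at d4
    rw [four c1 c2 c3 c4, d1, d2, d3, d4]
    have hu : uIcc (n : ℝ) (n + 1) = Icc (n : ℝ) (n + 1) := uIcc_of_le (by linarith)
    have ii : ∀ f : ℝ → ℝ, ContinuousOn f (Icc (n : ℝ) (n + 1)) →
        IntervalIntegrable f volume (n : ℝ) (n + 1) := fun f hf =>
      ContinuousOn.intervalIntegrable (by rw [hu]; exact hf)
    have j1 : IntervalIntegrable (fun s : ℝ => -(s ^ (-(3 / 4) : ℝ) * deriv sg (s - n))) volume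
        (n : ℝ) (n + 1) := ii _ ((rpow_cont n hn1 (-(3 / 4) : ℝ)).mul (dsg_int n).continuousOn).neg
    have j2 : IntervalIntegrable (fun s : ℝ => -(3 / 16 * s ^ (-(7 / 4) : ℝ) * deriv sg (s - n)))
        volume (n : ℝ) (n + 1) := ii _ ((continuousOn_const (c := (3 / 16 : ℝ)).mul
      (rpow_cont n hn1 (-(7 / 4) : ℝ))).mul (dsg_int n).continuousOn).neg
    have j3 : IntervalIntegrable (fun s : ℝ => 2 * s ^ (-(3 / 4) : ℝ) * sg (s - n)) volume
        (n : ℝ) (n + 1) := ii _ ((continuousOn_const (c := (2 : ℝ)).mul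
      (rpow_cont n hn1 (-(3 / 4) : ℝ))).mul (sg_int n).continuousOn)
    have j4 : IntervalIntegrable (fun s : ℝ => 3 / 8 * s ^ (-(7 / 4) : ℝ) * sg (s - n)) volume
        (n : ℝ) (n + 1) := ii _ ((continuousOn_const (c := (3 / 8 : ℝ)).mul
      (rpow_cont n hn1 (-(7 / 4) : ℝ))).mul (sg_int n).continuousOn)
    have j5 : IntervalIntegrable (fun s : ℝ => ((3 / 4) * s ^ (-(7 / 4) : ℝ) +
        21 / 64 * s ^ (-(11 / 4) : ℝ)) * sg (s - n)) volume (n : ℝ) (n + 1) :=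
      ii _ (((continuousOn_const (c := (3 / 4 : ℝ)).mul
      (rpow_cont n hn1 (-(7 / 4) : ℝ))).add (continuousOn_const (c := (21 / 64 : ℝ)).mul
      (rpow_cont n hn1 (-(11 / 4) : ℝ)))).mul (sg_int n).continuousOn)
    have s1 : (∫ s in (n : ℝ)..(n + 1), -(s ^ (-(3 / 4) : ℝ) * deriv sg (s - n))) +
        (∫ s in (n : ℝ)..(n + 1), -(3 / 16 * s ^ (-(7 / 4) : ℝ) * deriv sg (s - n))) =
        -∫ s in (n : ℝ)..(n + 1),
          ((3 / 4) * s ^ (-(7 / 4) : ℝ) + 21 / 64 * s ^ (-(11 / 4) : ℝ)) * sg (s - n) := by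
      rw [← byparts hn1, ← intervalIntegral.integral_add j1 j2, ← intervalIntegral.integral_neg]
      refine intervalIntegral.integral_congr fun s _ => ?_
      ring
    have s2 : ∫ s in (n : ℝ)..(n + 1), 1 / 2 * (n : ℝ) ^ (-(3 / 4) : ℝ) * sg (s - n) ≤
        (∫ s in (n : ℝ)..(n + 1), 2 * s ^ (-(3 / 4) : ℝ) * sg (s - n)) -
        (∫ s in (n : ℝ)..(n + 1), 3 / 8 * s ^ (-(7 / 4) : ℝ) * sg (s - n)) -
        ∫ s in (n : ℝ)..(n + 1),
          ((3 / 4) * s ^ (-(7 / 4) : ℝ) + 21 / 64 * s ^ (-(11 / 4) : ℝ)) * sg (s - n) := by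
      rw [← intervalIntegral.integral_sub j3 j4, ← intervalIntegral.integral_sub (j3.sub j4) j5]
      refine intervalIntegral.integral_mono_on (by linarith)
        (ii _ (continuousOn_const.mul (sg_int n).continuousOn)) ((j3.sub j4).sub j5) ?_
      intro s hs
      have := mul_le_mul_of_nonneg_right (ptw hn hs) (sg_nonneg (s - n))
      linarith
    have s3 : ∫ s in (n : ℝ)..(n + 1), 1 / 2 * (n : ℝ) ^ (-(3 / 4) : ℝ) * sg (s - n) =
        1 / 2 * (n : ℝ) ^ (-(3 / 4) : ℝ) * ∫ t in (0 : ℝ)..1, sg t := by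
      rw [intervalIntegral.integral_const_mul, intervalIntegral.integral_comp_sub_right]
      congr 2 <;> ring
    have hπ := pi_pos
    rw [s3] at s2
    have s4 := mul_le_mul_of_nonneg_left s2 (show 0 ≤ π / 2 by positivity)
    calc π / 4 * (∫ t in (0 : ℝ)..1, sg t) * (n : ℝ) ^ (-(3 / 4) : ℝ)
        = π / 2 * (1 / 2 * (n : ℝ) ^ (-(3 / 4) : ℝ) * ∫ t in (0 : ℝ)..1, sg t) := by ring
      _ ≤ _ := s4
      _ = _ := by
        linear_combination (-(π / 2)) * s1
  · rw [(h1 21 _).1]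
    have e1 : ∫ p in Sp 21, exp (-2 * p.1) * rho n (EE p) ^ 2 =
        ∫ p in Bx n, exp (-2 * p.1) * (sg (p.1 - n) * cos (2 * p.2)) ^ 2 := by
      refine to_Bx hn (fun p _ => ?_) (fun p hp => ?_)
      · have := congrFun (rho_EE n) p
        simp only [Function.comp] at this
        rw [this]
      · have h2 : sg (p.1 - n) = 0 := sg_zero fun h' => hp ⟨h'.1.le, h'.2.le⟩
        rw [h2]
        ring
    rw [e1]
    have h3 : ∫ p in Bx n, exp (-2 * p.1) * (sg (p.1 - n) * cos (2 * p.2)) ^ 2 ≤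
        exp (-2 * n) * (2 * π) := by
      refine bound fun p hp => ?_
      rw [abs_of_nonneg (by positivity)]
      have h4 : exp (-2 * p.1) ≤ exp (-2 * n) := Real.exp_le_exp.2 (by linarith [hp.1.1])
      have h5 : (sg (p.1 - n) * cos (2 * p.2)) ^ 2 ≤ 1 := by
        rw [sq_le_one_iff_abs_le_one, abs_mul, abs_of_nonneg (sg_nonneg _)]
        exact mul_le_one₀ (sg_le _) (abs_nonneg _) (Real.abs_cos_le_one _)
      calc exp (-2 * p.1) * (sg (p.1 - n) * cos (2 * p.2)) ^ 2 ≤ exp (-2 * n) * 1 := by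
            gcongr
        _ = _ := mul_one _
    refine h3.trans ?_
    have hπ := pi_pos
    have h6 := Real.exp_pos (-2 * (n : ℝ))
    nlinarith [mul_pos h6 hπ, mul_nonneg (mul_pos h6 hπ).le (sq_nonneg (K + 2))]
  · rw [(h1 21 _).1]
    have hn1 : 1 ≤ n := by omega
    have e1 : ∫ p in Sp 21, exp (-2 * p.1) * dx (rho n) (EE p) ^ 2 =
        ∫ p in Bx n, (cos p.2 * (deriv sg (p.1 - n) * cos (2 * p.2)) + sin p.2 *
          (sg (p.1 - n) * (-2 * sin (2 * p.2)))) ^ 2 := by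
      refine to_Bx hn (fun p _ => ?_) (fun p hp => ?_)
      · rw [dx_EE' h hn1]
        have h2 : exp (-2 * p.1) * (exp p.1 * exp p.1) = 1 := by
          rw [← Real.exp_add, ← Real.exp_add]
          ring_nf
          exact Real.exp_zero
        linear_combination ((cos p.2 * (deriv sg (p.1 - n) * cos (2 * p.2)) + sin p.2 *
          (sg (p.1 - n) * (-2 * sin (2 * p.2)))) ^ 2) * h2
      · have h2 : sg (p.1 - n) = 0 := sg_zero fun h' => hp ⟨h'.1.le, h'.2.le⟩
        rw [h2, dsg_zero hp]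
        ring
    rw [e1]
    have h3 : ∫ p in Bx n, (cos p.2 * (deriv sg (p.1 - n) * cos (2 * p.2)) + sin p.2 *
          (sg (p.1 - n) * (-2 * sin (2 * p.2)))) ^ 2 ≤ (K + 2) ^ 2 * (2 * π) := by
      refine bound fun p hp => ?_
      rw [abs_of_nonneg (by positivity)]
      have h4 : |deriv sg (p.1 - n)| ≤ K :=
        hK _ ⟨by linarith [hp.1.1], by linarith [hp.1.2]⟩
      have h5 : |cos p.2 * (deriv sg (p.1 - n) * cos (2 * p.2)) + sin p.2 *
          (sg (p.1 - n) * (-2 * sin (2 * p.2)))| ≤ K + 2 := by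
        refine (abs_add_le _ _).trans (add_le_add ?_ ?_)
        · rw [abs_mul, abs_mul]
          calc |cos p.2| * (|deriv sg (p.1 - n)| * |cos (2 * p.2)|) ≤ 1 * (K * 1) := by
                gcongr
                · exact Real.abs_cos_le_one _
                · exact Real.abs_cos_le_one _
            _ = K := by ring
        · rw [abs_mul, abs_mul, abs_mul, abs_of_nonneg (sg_nonneg _), abs_neg, abs_two]
          calc |sin p.2| * (sg (p.1 - n) * (2 * |sin (2 * p.2)|)) ≤ 1 * (1 * (2 * 1)) := by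
                gcongr
                · exact mul_nonneg (sg_nonneg _) (by positivity)
                · exact Real.abs_sin_le_one _
                · exact sg_le _
                · exact Real.abs_sin_le_one _
            _ = 2 := by norm_num
      rw [← sq_abs]
      exact pow_le_pow_left₀ (abs_nonneg _) h5 2
    refine h3.trans ?_
    have hπ := pi_pos
    nlinarith

end Pool.Agent.Q61.ND
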