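import Mathlib
import Pool.Agent.Q2.PM.Stm

/-! Job A3 of project PM (helper2): permutable 2-subgroups give normal subgroups. -/

set_option autoImplicit false

namespace Q184.PM_A3

open Subgroup Q2.PM
open Q2.TN (IsPNil IsSyl IsChief Nm)

/-- all prime divisors of the order have the property `S` -/
def PiG (S : ℕ → Prop) {G : Type} [Group G] (L : Subgroup G) : Prop :=
  ∀ r : ℕ, r.Prime → r ∣ Nat.card L → S r

lemma pi_two {G : Type} [Group G] [Finite G] (L : Subgroup G) : PiG (· = 2) L ↔ IsPGroup 2 L := by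
  constructor
  · intro h
    rw [IsPGroup.iff_card]
    exact ⟨_, Nat.eq_prime_pow_of_unique_prime_dvd Nat.card_pos.ne' (fun {d} hd hdv => h d hd hdv)⟩
  · intro h r hr hrd
    obtain ⟨n, hn⟩ := IsPGroup.iff_card.1 h
    rw [hn] at hrd
    exact (Nat.prime_dvd_prime_iff_eq hr Nat.prime_two).1 (hr.dvd_of_dvd_pow hrd)

lemma pi_odd {G : Type} [Group G] (L : Subgroup G) : PiG (· ≠ 2) L ↔ Odd (Nat.card L) := by
  constructor
  · intro h
    rw [← Nat.not_even_iff_odd, even_iff_two_dvd]
    exact fun h2 => h 2 Nat.prime_two h2 rfl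
  · rintro h r hr hrd rfl
    exact (Nat.not_even_iff_odd.2 h) (even_iff_two_dvd.2 hrd)

/-- the observation (O) -/
lemma obs {G : Type} [Group G] [Finite G] (N : Subgroup G) [hN : N.Normal] (S : ℕ → Prop)
    (N₀ : Subgroup N) (h0 : N₀.Normal) (h1 : N₀ ≠ ⊥) (h2 : PiG S N₀) :
    ∃ L : Subgroup G, L.Normal ∧ L ≠ ⊥ ∧ PiG S L := by
  classical
  let F : Set (Subgroup N) := {L | L.Normal ∧ PiG S L}
  have hF : F.Finite := Set.toFinite _
  obtain ⟨L, hL, hmax⟩ := Set.exists_max_image F (fun L => Nat.card L) hF ⟨N₀, h0, h2⟩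
  have hbig : ∀ L' ∈ F, L' ≤ L := by
    intro L' hL'
    have := hL.1
    have := hL'.1
    have hmem : L ⊔ L' ∈ F := by
      refine ⟨inferInstance, fun r hr hrd => ?_⟩
      have e1 : Nat.card L * L.relIndex (L ⊔ L') = Nat.card (L ⊔ L' : Subgroup N) := by
        have := relIndex_mul_relIndex (⊥ : Subgroup N) L (L ⊔ L') bot_le le_sup_left
        rwa [relIndex_bot_left, relIndex_bot_left] at this
      rw [relIndex_sup_left] at e1
      rw [← e1] at hrd
      rcases (Nat.Prime.dvd_mul hr).1 hrd with h | h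
      · exact hL.2 r hr h
      · exact hL'.2 r hr (h.trans (relIndex_dvd_card L L'))
    have h3 : L = L ⊔ L' := Subgroup.eq_of_le_of_card_ge le_sup_left (hmax _ hmem)
    rw [h3]
    exact le_sup_right
  have hconj : ∀ (g : G) (x : N), x ∈ L → MulAut.conjNormal g x ∈ L := by
    intro g x hx
    have hm : L.map (MulAut.conjNormal g : MulAut N).toMonoidHom ∈ F := by
      refine ⟨hL.1.map _ (MulAut.conjNormal g : MulAut N).surjective, fun r hr hrd => ?_⟩
      have hc : Nat.card (L.map (MulAut.conjNormal g : MulAut N).toMonoidHom) = Nat.card L :=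
        Subgroup.card_map_of_injective (f := (MulAut.conjNormal g : MulAut N).toMonoidHom)
          (MulAut.conjNormal g : MulAut N).injective
      rw [hc] at hrd
      exact hL.2 r hr hrd
    exact hbig _ hm ⟨x, hx, rfl⟩
  refine ⟨L.map N.subtype, ⟨?_⟩, ?_, ?_⟩
  · rintro _ ⟨x, hx, rfl⟩ g
    refine ⟨MulAut.conjNormal g x, hconj g x hx, ?_⟩
    simp
  · intro h
    rw [Subgroup.map_eq_bot_iff_of_injective _ N.subtype_injective] at h
    have := hbig N₀ ⟨h0, h2⟩
    rw [h] at this
    exact h1 (le_bot_iff.1 this)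
  · intro r hr hrd
    rw [Subgroup.card_map_of_injective N.subtype_injective] at hrd
    exact hL.2 r hr hrd

lemma obs' {G : Type} [Group G] [Finite G] (N : Subgroup G) [hN : N.Normal]
    (h : ∃ N₀ : Subgroup N, Gd N₀) : ∃ L : Subgroup G, Gd L := by
  obtain ⟨N₀, h0, h1, h2⟩ := h
  rcases h2 with h2 | h2
  · obtain ⟨L, a, b, c⟩ := obs N (· = 2) N₀ h0 h1 ((pi_two _).2 h2)
    exact ⟨L, a, b, Or.inl ((pi_two _).1 c)⟩
  · obtain ⟨L, a, b, c⟩ := obs N (· ≠ 2) N₀ h0 h1 ((pi_odd _).2 h2)
    exact ⟨L, a, b, Or.inr ((pi_odd _).1 c)⟩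

/-- passage to a normal subgroup `N` when `H` permutes with the odd subgroups of `N` -/
lemma sub_sp {G : Type} [Group G] (H N : Subgroup G)
    (h : ∀ q : ℕ, q.Prime → q ≠ 2 → ∀ Y : Subgroup G, IsPGroup q Y → Y ≤ N → Pm H Y) :
    Sp (H.subgroupOf N) := by
  intro q hq hq2 Y hY _ a ha x hx
  have hY' : IsPGroup q (Y.map N.subtype) := hY.map _
  have hle : Y.map N.subtype ≤ N := by
    rintro _ ⟨y, _, rfl⟩
    exact y.2
  obtain ⟨x', ⟨y, hy, hyx⟩, h', hh', e⟩ := h q hq hq2 _ hY' hle a (mem_subgroupOf.1 ha) x ⟨x, hx, rfl⟩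
  have hN : h' ∈ N := by
    have : h' = (x' : G)⁻¹ * (a * x) := by rw [e]; group
    rw [this]
    refine N.mul_mem (N.inv_mem ?_) (N.mul_mem a.2 x.2)
    rw [← hyx]
    exact y.2
  refine ⟨y, hy, ⟨h', hN⟩, mem_subgroupOf.2 hh', ?_⟩
  apply Subtype.ext
  rw [← hyx] at e
  exact e

theorem a3 (h1 : S_A1) (h2 : S_A2) : S_A3 := by
  have key : ∀ n : ℕ, ∀ (G : Type) [Group G] [Finite G] (H : Subgroup G), Nat.card G = n → H ≠ ⊥ →
      IsPGroup 2 H → Sp H → ∃ N : Subgroup G, Gd N := by
    intro n
    induction n using Nat.strong_induction_on with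
    | _ n IH =>
      intro G _ _ H hn hH hH2 hSp
      -- a proper subgroup has smaller order
      have hlt : ∀ N : Subgroup G, N ≠ ⊤ → Nat.card N < n := by
        intro N hN
        rw [← hn]
        refine lt_of_le_of_ne (Nat.le_of_dvd Nat.card_pos (Subgroup.card_subgroup_dvd_card N)) fun h => ?_
        exact hN (Subgroup.eq_top_of_card_eq N h)
      have hstep : ∀ N : Subgroup G, N.Normal → N ≠ ⊤ → H ⊓ N ≠ ⊥ → N ≤ normalClosure (H : Set G) →
          ∃ L : Subgroup G, Gd L := by
        intro N hN hNt hHN hle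
        have := hN
        refine obs' N (IH _ (hlt N hNt) N (H.subgroupOf N) rfl ?_ ?_ ?_)
        · intro h
          rw [Subgroup.subgroupOf_eq_bot] at h
          exact hHN (disjoint_iff.1 h)
        · exact hH2.comap_of_injective N.subtype N.subtype_injective
        · exact sub_sp H N fun q hq hq2 Y hY hYN => hSp q hq hq2 Y hY (hYN.trans hle)
      by_cases hR : normalClosure (H : Set G) = ⊤
      swap
      · refine hstep _ normalClosure_normal hR ?_ le_rfl
        rw [inf_eq_left.2 (Subgroup.le_normalClosure (H := H))]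
        exact hH
      by_cases hsimp : ∀ N : Subgroup G, N.Normal → N = ⊥ ∨ N = ⊤
      · -- `G` is simple
        by_cases hp : ∀ q : ℕ, q.Prime → q ∣ Nat.card G → q = 2
        · refine ⟨⊤, inferInstance, ?_, Or.inl ?_⟩
          · intro h
            exact hH (le_bot_iff.1 (h ▸ le_top))
          · rw [← pi_two]
            intro r hr hrd
            refine hp r hr ?_
            rwa [Subgroup.card_top] at hrd
        · push Not at hp
          obtain ⟨q, hq, hqd, hq2⟩ := hp
          have := Fact.mk hq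
          obtain ⟨x, hx⟩ := exists_prime_orderOf_dvd_card' q hqd
          have hB : Nat.card (zpowers x) = q := by rw [Nat.card_zpowers, hx]
          have hBp : IsPGroup q (zpowers x) := by
            rw [IsPGroup.iff_card]
            exact ⟨1, by rw [hB, pow_one]⟩
          have hBne : zpowers x ≠ ⊥ := by
            intro h
            rw [h, Subgroup.card_bot] at hB
            exact hq.one_lt.ne hB
          have hfac := h1 G H (zpowers x) hsimp hH hBne (fun g =>
            hSp q hq hq2 _ (hBp.map _) (by rw [hR]; exact le_top))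
          obtain ⟨a, ha⟩ := IsPGroup.iff_card.1 hH2
          have hdis : Disjoint H (zpowers x) := by
            apply Subgroup.disjoint_of_coprime_natCard
            rw [ha, hB]
            exact Nat.Coprime.pow_left a ((Nat.coprime_primes Nat.prime_two hq).2 (Ne.symm hq2))
          have hcomp : IsComplement' H (zpowers x) := by
            apply isComplement'_of_disjoint_and_mul_eq_univ hdis
            rw [Set.eq_univ_iff_forall]
            intro g
            obtain ⟨u, hu, v, hv, e⟩ := hfac g
            exact ⟨u, hu, v, hv, e.symm⟩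
          have hc := hcomp.card_mul_card
          rw [ha, hB] at hc
          exact h2 G a q hq hq2 hc.symm
      · push Not at hsimp
        obtain ⟨N, hN, hNb, hNt⟩ := hsimp
        by_cases hHN : H ⊓ N = ⊥
        swap
        · exact hstep N hN hNt hHN (by rw [hR]; exact le_top)
        -- `H` normalizes the odd subgroups of `N`
        have hnorm : ∀ q : ℕ, q.Prime → q ≠ 2 → ∀ Y : Subgroup G, IsPGroup q Y → Y ≤ N →
            ∀ h ∈ H, ∀ y ∈ Y, h * y * h⁻¹ ∈ Y := by
          intro q hq hq2 Y hY hYN h hh y hy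
          obtain ⟨y', hy', h', hh', e⟩ := hSp q hq hq2 Y hY (by rw [hR]; exact le_top) h hh y hy
          have e2 : h' * h⁻¹ = y'⁻¹ * (h * y * h⁻¹) := by rw [e]; group
          have h3 : h' * h⁻¹ ∈ H ⊓ N := by
            refine ⟨H.mul_mem hh' (H.inv_mem hh), ?_⟩
            rw [e2]
            exact N.mul_mem (N.inv_mem (hYN hy')) (hN.conj_mem y (hYN hy) h)
          rw [hHN, Subgroup.mem_bot] at h3
          rw [h3] at e2
          have : h * y * h⁻¹ = y' := by
            rw [eq_comm, inv_mul_eq_one] at e2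
            exact e2.symm
          rw [this]
          exact hy'
        have hnormal : ∀ q : ℕ, q.Prime → q ≠ 2 → ∀ Y : Subgroup G, IsPGroup q Y → Y ≤ N → Y.Normal := by
          intro q hq hq2 Y hY hYN
          -- all elements of the normal closure normalize `Y`
          have h4 : ∀ g : G, ∀ h ∈ H, ∀ y ∈ Y, (g * h * g⁻¹) * y * (g * h * g⁻¹)⁻¹ ∈ Y := by
            intro g h hh y hy
            have hY' : IsPGroup q (Y.map (MulAut.conj g⁻¹).toMonoidHom) := hY.map _
            have hYN' : Y.map (MulAut.conj g⁻¹).toMonoidHom ≤ N := by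
              rintro _ ⟨w, hw, rfl⟩
              exact hN.conj_mem w (hYN hw) g⁻¹
            obtain ⟨w, hw, e⟩ := hnorm q hq hq2 _ hY' hYN' h hh (g⁻¹ * y * g) ⟨y, hy, by simp⟩
            have e' : g⁻¹ * w * g = h * (g⁻¹ * y * g) * h⁻¹ := by rw [← e]; simp
            have : (g * h * g⁻¹) * y * (g * h * g⁻¹)⁻¹ = w := by
              calc (g * h * g⁻¹) * y * (g * h * g⁻¹)⁻¹ = g * (h * (g⁻¹ * y * g) * h⁻¹) * g⁻¹ := by group
                _ = w := by rw [← e']; group
            rw [this]
            exact hw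
          have h5 : normalClosure (H : Set G) ≤ normalizer (Y : Set G) := by
            rw [Subgroup.normalClosure]
            rw [Subgroup.closure_le]
            intro z hz
            rw [Group.mem_conjugatesOfSet_iff] at hz
            obtain ⟨h, hh, hc⟩ := hz
            obtain ⟨g, rfl⟩ := isConj_iff.1 hc
            rw [SetLike.mem_coe, Subgroup.mem_normalizer_iff]
            intro y
            refine ⟨h4 g h hh y, fun hy => ?_⟩
            have := h4 g h⁻¹ (H.inv_mem hh) _ hy
            have e : (g * h⁻¹ * g⁻¹) * (g * h * g⁻¹ * y * (g * h * g⁻¹)⁻¹) * (g * h⁻¹ * g⁻¹)⁻¹ = y := by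
              group
            rwa [e] at this
          rw [hR, top_le_iff, Subgroup.normalizer_eq_top_iff] at h5
          exact h5
        by_cases hp : ∀ q : ℕ, q.Prime → q ∣ Nat.card N → q = 2
        · exact ⟨N, hN, hNb, Or.inl ((pi_two _).1 hp)⟩
        · push Not at hp
          obtain ⟨q, hq, hqd, hq2⟩ := hp
          have := Fact.mk hq
          obtain ⟨x, hx⟩ := exists_prime_orderOf_dvd_card' q hqd
          have hB : Nat.card (zpowers (x : G)) = q := by rw [Nat.card_zpowers, Subgroup.orderOf_coe, hx]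
          have hBp : IsPGroup q (zpowers (x : G)) := by
            rw [IsPGroup.iff_card]
            exact ⟨1, by rw [hB, pow_one]⟩
          have hBne : zpowers (x : G) ≠ ⊥ := by
            intro h
            rw [h, Subgroup.card_bot] at hB
            exact hq.one_lt.ne hB
          refine ⟨zpowers (x : G), hnormal q hq hq2 _ hBp ?_, hBne, Or.inr ?_⟩
          · rw [Subgroup.zpowers_le]
            exact x.2
          · rw [hB]
            exact hq.odd_of_ne_two hq2
  intro G _ _ H hH hH2 hSp
  exact key _ G H rfl hH hH2 hSp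

end Q184.PM_A3
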