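import Pool.Agent.Q88.PS.Stm

/-!
Project PS (helper88), job BASE (helper184): `K` is compact, nonempty, self-similar, and the bounds
of the coordinates.
-/

set_option autoImplicit false

open MeasureTheory Set Filter Topology
open scoped ENNReal NNReal

noncomputable section

namespace Pool.Agent.Q88.PS

namespace BASE

theorem term_nonneg (f : D → ℕ) (w : ℕ → D) (n : ℕ) :
    0 ≤ (1 / 8 : ℝ) ^ (n + 1) * (f (w n) : ℝ) := by positivity

theorem term_le {f : D → ℕ} {B : ℕ} (hf : ∀ d, f d ≤ B) (w : ℕ → D) (n : ℕ) :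
    (1 / 8 : ℝ) ^ (n + 1) * (f (w n) : ℝ) ≤ (1 / 8 : ℝ) ^ (n + 1) * (B : ℝ) :=
  mul_le_mul_of_nonneg_left (by exact_mod_cast hf (w n)) (by positivity)

theorem hasSum_geo (B : ℕ) : HasSum (fun n : ℕ => (1 / 8 : ℝ) ^ (n + 1) * (B : ℝ)) (B / 7) := by
  have h := (hasSum_geometric_of_lt_one (r := (1 / 8 : ℝ)) (by norm_num) (by norm_num)).mul_left
    ((B : ℝ) / 8)
  have e1 : (fun n : ℕ => (1 / 8 : ℝ) ^ (n + 1) * (B : ℝ)) =
      fun n : ℕ => (B : ℝ) / 8 * (1 / 8 : ℝ) ^ n := by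
    funext n
    rw [pow_succ]
    ring
  have e2 : (B : ℝ) / 7 = (B : ℝ) / 8 * (1 - 1 / 8 : ℝ)⁻¹ := by
    norm_num
    ring
  rw [e1, e2]
  exact h

theorem summable_term {f : D → ℕ} {B : ℕ} (hf : ∀ d, f d ≤ B) (w : ℕ → D) :
    Summable fun n => (1 / 8 : ℝ) ^ (n + 1) * (f (w n) : ℝ) :=
  Summable.of_nonneg_of_le (term_nonneg f w) (term_le hf w) (hasSum_geo B).summable

theorem continuous_coord {f : D → ℕ} {B : ℕ} (hf : ∀ d, f d ≤ B) :
    Continuous fun w : ℕ → D => ∑' n, (1 / 8 : ℝ) ^ (n + 1) * (f (w n) : ℝ) := by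
  refine continuous_tsum (u := fun n : ℕ => (1 / 8 : ℝ) ^ (n + 1) * (B : ℝ)) (fun n => ?_)
    (hasSum_geo B).summable (fun n w => ?_)
  · have h1 : Continuous fun d : D => (f d : ℝ) := continuous_of_discreteTopology
    exact continuous_const.mul (h1.comp (continuous_apply n))
  · rw [Real.norm_of_nonneg (term_nonneg f w n)]
    exact term_le hf w n

theorem coord_mem {f : D → ℕ} {B : ℕ} (hf : ∀ d, f d ≤ B) (w : ℕ → D) :
    ∑' n, (1 / 8 : ℝ) ^ (n + 1) * (f (w n) : ℝ) ∈ Icc (0 : ℝ) (B / 7) := by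
  refine ⟨tsum_nonneg (term_nonneg f w), ?_⟩
  rw [← (hasSum_geo B).tsum_eq]
  exact (summable_term hf w).tsum_le_tsum (term_le hf w) (hasSum_geo B).summable

theorem coord_succ {f : D → ℕ} {B : ℕ} (hf : ∀ d, f d ≤ B) (w : ℕ → D) :
    ∑' n, (1 / 8 : ℝ) ^ (n + 1) * (f (w n) : ℝ) =
      1 / 8 * ((∑' n, (1 / 8 : ℝ) ^ (n + 1) * (f (w (n + 1)) : ℝ)) + f (w 0)) := by
  rw [(summable_term hf w).tsum_eq_zero_add]
  have h1 : ∑' n, (1 / 8 : ℝ) ^ (n + 1 + 1) * (f (w (n + 1)) : ℝ) =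
      1 / 8 * ∑' n, (1 / 8 : ℝ) ^ (n + 1) * (f (w (n + 1)) : ℝ) := by
    rw [← tsum_mul_left]
    refine tsum_congr fun n => ?_
    rw [pow_succ]
    ring
  rw [h1]
  ring

theorem da_le (d : D) : da d ≤ 3 := by
  have := d.1.isLt
  unfold da
  omega

theorem db_le (d : D) : db d ≤ 5 := by
  have := d.2.isLt
  unfold db
  omega

theorem code_zero (w : ℕ → D) : code w 0 = ∑' n, (1 / 8 : ℝ) ^ (n + 1) * (da (w n) : ℝ) := rfl

theorem code_one (w : ℕ → D) : code w 1 = ∑' n, (1 / 8 : ℝ) ^ (n + 1) * (db (w n) : ℝ) := rfl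

theorem code_psi (w : ℕ → D) : code w = psi (w 0) (code fun n => w (n + 1)) := by
  ext i
  fin_cases i
  · show code w 0 = psi (w 0) (code fun n => w (n + 1)) 0
    rw [code_zero, coord_succ da_le w]
    rfl
  · show code w 1 = psi (w 0) (code fun n => w (n + 1)) 1
    rw [code_one, coord_succ db_le w]
    rfl

theorem continuous_code : Continuous code := by
  unfold code
  refine (PiLp.continuous_toLp 2 (fun _ : Fin 2 => ℝ)).comp ?_
  refine continuous_pi fun i => ?_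
  fin_cases i
  · exact continuous_coord da_le
  · exact continuous_coord db_le

end BASE

/-- JOB BASE. -/
theorem base : S_base := by
  refine ⟨isCompact_range BASE.continuous_code, ⟨code fun _ => (0, 0), mem_range_self _⟩, ?_, ?_⟩
  · ext x
    simp only [mem_iUnion, mem_image]
    constructor
    · rintro ⟨w, rfl⟩
      exact ⟨w 0, code fun n => w (n + 1), mem_range_self _, (BASE.code_psi w).symm⟩
    · rintro ⟨d, _, ⟨w, rfl⟩, rfl⟩
      refine ⟨fun n => Nat.casesOn n d w, ?_⟩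
      rw [BASE.code_psi]
      rfl
  · rintro x ⟨w, rfl⟩
    have h1 := BASE.coord_mem BASE.da_le w
    have h2 := BASE.coord_mem BASE.db_le w
    rw [← BASE.code_zero] at h1
    rw [← BASE.code_one] at h2
    exact ⟨by exact_mod_cast h1, by exact_mod_cast h2⟩

end Pool.Agent.Q88.PS
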