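import Pool.Agent.Q88.PS.Stm

/-!
Project PS (helper88), job INTV (helper184): the projection of `K` is an interval.
-/

set_option autoImplicit false

open MeasureTheory Set Filter Topology
open scoped ENNReal NNReal

noncomputable section

namespace Pool.Agent.Q88.PS

namespace INTV

theorem summable_term {f : D → ℕ} {B : ℕ} (hf : ∀ d, f d ≤ B) (w : ℕ → D) :
    Summable fun n => (1 / 8 : ℝ) ^ (n + 1) * (f (w n) : ℝ) := by
  have h := (summable_geometric_of_lt_one (r := (1 / 8 : ℝ)) (by norm_num) (by norm_num)).mul_left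
    ((B : ℝ) / 8)
  refine Summable.of_nonneg_of_le (fun n => by positivity) (fun n => ?_) h
  have h1 : (f (w n) : ℝ) ≤ B := by exact_mod_cast hf (w n)
  calc (1 / 8 : ℝ) ^ (n + 1) * (f (w n) : ℝ) ≤ (1 / 8 : ℝ) ^ (n + 1) * (B : ℝ) := by gcongr
    _ = (B : ℝ) / 8 * (1 / 8 : ℝ) ^ n := by
      rw [pow_succ]
      ring

theorem da_le (d : D) : da d ≤ 3 := by
  have := d.1.isLt
  unfold da
  omega

theorem db_le (d : D) : db d ≤ 5 := by
  have := d.2.isLt
  unfold db
  omega

theorem hasSum_pr (lam : ℝ) (w : ℕ → D) :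
    HasSum (fun n => (1 / 8 : ℝ) ^ (n + 1) * dl lam (w n)) (pr lam (code w)) := by
  have h1 := (summable_term da_le w).hasSum
  have h2 := (summable_term db_le w).hasSum.mul_left lam
  have h3 := h1.add h2
  have e1 : (fun n => (1 / 8 : ℝ) ^ (n + 1) * dl lam (w n)) = fun n =>
      (1 / 8 : ℝ) ^ (n + 1) * (da (w n) : ℝ) + lam * ((1 / 8 : ℝ) ^ (n + 1) * (db (w n) : ℝ)) := by
    funext n
    unfold dl
    ring
  rw [e1]
  exact h3

end INTV

/-- JOB INTV. -/
theorem intv (h : S_base) (h1 : S_step) : S_intv := by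
  intro lam hlam
  apply Subset.antisymm
  · rintro _ ⟨x, hx, rfl⟩
    obtain ⟨⟨ha, hb⟩, ⟨hc, hd⟩⟩ := h.2.2.2 x hx
    have hl := hlam.1
    unfold pr LL
    constructor
    · have : 0 ≤ lam * x 1 := mul_nonneg (by linarith) hc
      linarith
    · have : lam * x 1 ≤ lam * (5 / 7) := mul_le_mul_of_nonneg_left hd (by linarith)
      linarith
  · intro y hy
    choose g hg using fun z : Icc (0 : ℝ) (LL lam) => h1 lam hlam z.1 z.2
    let Y : ℕ → Icc (0 : ℝ) (LL lam) := fun n =>
      Nat.rec ⟨y, hy⟩ (fun _ z => ⟨8 * z.1 - dl lam (g z), hg z⟩) n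
    have hY0 : (Y 0).1 = y := rfl
    have hY : ∀ n, (Y (n + 1)).1 = 8 * (Y n).1 - dl lam (g (Y n)) := fun n => rfl
    refine ⟨code fun n => g (Y n), mem_range_self _, ?_⟩
    have hs := (INTV.hasSum_pr lam fun n => g (Y n)).tendsto_sum_nat
    have hp : ∀ n, ∑ i ∈ Finset.range n, (1 / 8 : ℝ) ^ (i + 1) * dl lam (g (Y i)) =
        y - (1 / 8 : ℝ) ^ n * (Y n).1 := by
      intro n
      induction n with
      | zero => simp [hY0]
      | succ n ih =>
        rw [Finset.sum_range_succ, ih, hY, pow_succ]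
        ring
    have hlim : Tendsto (fun n => (1 / 8 : ℝ) ^ n * (Y n).1) atTop (𝓝 0) := by
      have hz : Tendsto (fun n => (1 / 8 : ℝ) ^ n * LL lam) atTop (𝓝 0) := by
        have := (tendsto_pow_atTop_nhds_zero_of_lt_one (r := (1 / 8 : ℝ)) (by norm_num)
          (by norm_num)).mul_const (LL lam)
        rwa [zero_mul] at this
      refine squeeze_zero (fun n => mul_nonneg (by positivity) (Y n).2.1) (fun n => ?_) hz
      exact mul_le_mul_of_nonneg_left (Y n).2.2 (by positivity)
    have h2 : Tendsto (fun n => ∑ i ∈ Finset.range n, (1 / 8 : ℝ) ^ (i + 1) * dl lam (g (Y i)))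
        atTop (𝓝 y) := by
      simp only [hp]
      have := hlim.const_sub y
      rwa [sub_zero] at this
    exact tendsto_nhds_unique hs h2

end Pool.Agent.Q88.PS
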