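import Pool.Agent.Q88.PS.Stm

/-!
Project PS (helper88), job SGO (helper184): the directions with the singularity property of level
`ε` form an open set.
-/

set_option autoImplicit false

open MeasureTheory Set Filter Topology
open scoped ENNReal NNReal

noncomputable section

namespace Pool.Agent.Q88.PS

namespace SGO

/-- the translation part of `res` -/
def cw (lam : ℝ) : List D → ℝ
  | [] => 0
  | d :: w => 8 ^ w.length * dl lam d + cw lam w

theorem res_eq (lam : ℝ) (w : List D) : ∀ τ : ℝ, res lam τ w = 8 ^ w.length * τ - cw lam w := by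
  induction w with
  | nil =>
    intro τ
    simp [res, cw]
  | cons d w ih =>
    intro τ
    rw [res, ih, cw, List.length_cons, pow_succ]
    ring

theorem continuous_cw (w : List D) : Continuous fun lam : ℝ => cw lam w := by
  induction w with
  | nil => exact continuous_const
  | cons d w ih =>
    have h1 : Continuous fun lam : ℝ => dl lam d := by
      unfold dl
      fun_prop
    exact (continuous_const.mul h1).add ih

/-- the points of the interval of the word `w` -/
def ph (w : List D) (lam s : ℝ) : ℝ := (cw lam w + s * LL lam) / 8 ^ w.length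

theorem continuous_ph (w : List D) : Continuous fun z : ℝ × ℝ => ph w z.1 z.2 := by
  unfold ph
  have h1 : Continuous fun z : ℝ × ℝ => cw z.1 w := (continuous_cw w).comp continuous_fst
  have h2 : Continuous fun z : ℝ × ℝ => z.2 * LL z.1 := by
    unfold LL
    fun_prop
  exact (h1.add h2).div_const _

theorem res_ph (w : List D) (lam s : ℝ) : res lam (ph w lam s) w = s * LL lam := by
  rw [res_eq, ph, mul_div_cancel₀]
  · ring
  · positivity

theorem LL_pos {lam : ℝ} (h : 0 < lam) : 0 < LL lam := by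
  unfold LL
  positivity

theorem exists_ph {w : List D} {lam τ : ℝ} (hl : 0 < lam)
    (h : res lam τ w ∈ Icc (0 : ℝ) (LL lam)) : ∃ s ∈ Icc (0 : ℝ) 1, τ = ph w lam s := by
  have hL := LL_pos hl
  refine ⟨res lam τ w / LL lam, ⟨div_nonneg h.1 hL.le, (div_le_one hL).2 h.2⟩, ?_⟩
  rw [ph, div_mul_cancel₀ _ hL.ne', res_eq, eq_div_iff (by positivity)]
  ring

end SGO

/-- JOB SGO. -/
theorem sgo : S_sgo := by
  intro ε
  rw [isOpen_iff_eventually]
  rintro lam₀ ⟨⟨n, W, hW, hcard, hvol⟩, hpos⟩
  obtain ⟨O, hO, hOo, hOv⟩ := Set.exists_isOpen_lt_of_lt _ _ hvol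
  have h1 : ∀ w ∈ W, ∀ᶠ lam in 𝓝 lam₀, ∀ s ∈ Icc (0 : ℝ) 1, SGO.ph w lam s ∈ O := by
    intro w hw
    refine isCompact_Icc.eventually_forall_of_forall_eventually fun s hs => ?_
    have h2 : SGO.ph w lam₀ s ∈ O := by
      apply hO
      refine ⟨w, hw, ?_⟩
      rw [SGO.res_ph]
      have hL := SGO.LL_pos hpos
      exact ⟨mul_nonneg hs.1 hL.le, mul_le_of_le_one_left hL.le hs.2⟩
    exact (SGO.continuous_ph w).continuousAt.eventually_mem (hOo.mem_nhds h2)
  have h3 : ∀ᶠ lam in 𝓝 lam₀, ∀ w ∈ W, ∀ s ∈ Icc (0 : ℝ) 1, SGO.ph w lam s ∈ O :=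
    (Filter.eventually_all_finset W).2 h1
  filter_upwards [h3, isOpen_Ioi.mem_nhds hpos] with lam h4 h5
  refine ⟨⟨n, W, hW, hcard, lt_of_le_of_lt (measure_mono ?_) hOv⟩, h5⟩
  rintro τ ⟨w, hw, hτ⟩
  obtain ⟨s, hs, rfl⟩ := SGO.exists_ph h5 hτ
  exact h4 w hw s hs

end Pool.Agent.Q88.PS
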