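import Mathlib
import Pool.Agent.Q82.QC.Stm

/-!
# Project QC, job DEC: decay of `B` and of the mollification
-/

set_option autoImplicit false

open MeasureTheory Filter Topology Real InnerProductSpace Laplacian

namespace Pool.Agent.Q82.QC

theorem dec_bd_nonneg (e : ℝ) (z : E) : 0 ≤ bd e z := by
  unfold bd
  positivity

theorem dec_pos {x : E} (hx : x ∈ Om) : 0 < ‖x - pp‖ := by
  rw [norm_pos_iff, sub_ne_zero]
  intro h
  have h1 : x 0 < 2 := hx.2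
  rw [h] at h1
  have h2 : pp 0 = 10 := by simp [pp]
  rw [h2] at h1
  norm_num at h1

theorem dec_bd (e R : ℝ) : ∃ M : ℝ, 0 ≤ M ∧ ∀ x y : E, ‖y - pp‖ ≤ R → 0 < ‖x - pp‖ →
    bd e (x - y) ≤ M / ‖x - pp‖ ^ 8 := by
  by_cases he : e = 0
  · refine ⟨0, le_rfl, fun x y _ _ => ?_⟩
    subst he
    simp [bd]
  · have he2 : 0 < e ^ 2 := by positivity
    refine ⟨96 * e ^ 4 * (2 + 2 * R ^ 2 / e ^ 2) ^ 4, by positivity, fun x y hy hx => ?_⟩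
    have h1 : ‖x - pp‖ ≤ ‖x - y‖ + ‖y - pp‖ := by
      calc ‖x - pp‖ = ‖(x - y) + (y - pp)‖ := by rw [sub_add_sub_cancel]
        _ ≤ _ := norm_add_le _ _
    have h0 : 0 ≤ ‖y - pp‖ := norm_nonneg _
    have h0' : 0 ≤ ‖x - y‖ := norm_nonneg _
    have h2 : ‖x - pp‖ ^ 2 ≤ 2 * ‖x - y‖ ^ 2 + 2 * R ^ 2 := by
      have h3 : ‖x - pp‖ ^ 2 ≤ (‖x - y‖ + ‖y - pp‖) ^ 2 := by gcongr
      have h4 : ‖y - pp‖ ^ 2 ≤ R ^ 2 := by gcongr
      nlinarith [sq_nonneg (‖x - y‖ - ‖y - pp‖)]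
    have h5 : ‖x - pp‖ ^ 2 ≤ (2 + 2 * R ^ 2 / e ^ 2) * (e ^ 2 + ‖x - y‖ ^ 2) := by
      have h6 : (2 + 2 * R ^ 2 / e ^ 2) * (e ^ 2 + ‖x - y‖ ^ 2) =
          2 * ‖x - y‖ ^ 2 + 2 * R ^ 2 + (2 * e ^ 2 + 2 * R ^ 2 / e ^ 2 * ‖x - y‖ ^ 2) := by
        field_simp
        ring
      rw [h6]
      have h7 : 0 ≤ 2 * e ^ 2 + 2 * R ^ 2 / e ^ 2 * ‖x - y‖ ^ 2 := by positivity
      linarith
    have hT : 0 < e ^ 2 + ‖x - y‖ ^ 2 := by positivity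
    unfold bd
    rw [div_le_div_iff₀ (by positivity) (by positivity)]
    have h8 : ‖x - pp‖ ^ 8 ≤ ((2 + 2 * R ^ 2 / e ^ 2) * (e ^ 2 + ‖x - y‖ ^ 2)) ^ 4 := by
      calc ‖x - pp‖ ^ 8 = (‖x - pp‖ ^ 2) ^ 4 := by ring
        _ ≤ _ := by gcongr
    calc 96 * e ^ 4 * ‖x - pp‖ ^ 8
        ≤ 96 * e ^ 4 * ((2 + 2 * R ^ 2 / e ^ 2) * (e ^ 2 + ‖x - y‖ ^ 2)) ^ 4 := by gcongr
      _ = 96 * e ^ 4 * (2 + 2 * R ^ 2 / e ^ 2) ^ 4 * (e ^ 2 + ‖x - y‖ ^ 2) ^ 4 := by ring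

/-- JOB DEC -/
theorem dec : S_DEC := by
  constructor
  · intro A _ β
    choose M hM0 hM using fun a : E => dec_bd (ep A β a) ‖a - pp‖
    refine ⟨∑ a ∈ A, M a, fun x hx => ?_⟩
    have hx0 := dec_pos hx
    have h1 : 0 ≤ B A β x := Finset.sum_nonneg fun a _ => dec_bd_nonneg _ _
    rw [abs_of_nonneg h1, Finset.sum_div]
    exact Finset.sum_le_sum fun a _ => hM a x a le_rfl hx0
  · intro e g _ hg hc
    obtain ⟨R, hR⟩ := hc.isCompact.isBounded.exists_norm_le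
    obtain ⟨M, hM0, hM⟩ := dec_bd e (R + ‖pp‖)
    refine ⟨(16 * π ^ 2)⁻¹ * (M * ∫ y, |g y|), fun x hx => ?_⟩
    have hx0 := dec_pos hx
    have hint : Integrable g := hg.integrable_of_hasCompactSupport hc
    have h1 : ‖∫ y, bd e (x - y) * g y‖ ≤ ∫ y, M / ‖x - pp‖ ^ 8 * |g y| := by
      refine norm_integral_le_of_norm_le (hint.abs.const_mul _) (Eventually.of_forall fun y => ?_)
      show ‖bd e (x - y) * g y‖ ≤ M / ‖x - pp‖ ^ 8 * |g y|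
      rw [norm_mul, Real.norm_eq_abs, Real.norm_eq_abs, abs_of_nonneg (dec_bd_nonneg _ _)]
      by_cases hy : y ∈ tsupport g
      · have h2 : ‖y - pp‖ ≤ R + ‖pp‖ := (norm_sub_le _ _).trans (by linarith [hR y hy])
        exact mul_le_mul_of_nonneg_right (hM x y h2 hx0) (abs_nonneg _)
      · have : g y = 0 := image_eq_zero_of_notMem_tsupport hy
        rw [this, abs_zero, mul_zero, mul_zero]
    rw [integral_const_mul, Real.norm_eq_abs] at h1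
    unfold mol
    rw [abs_mul, abs_of_nonneg (by positivity : (0 : ℝ) ≤ (16 * π ^ 2)⁻¹), mul_div_assoc]
    refine mul_le_mul_of_nonneg_left (h1.trans (le_of_eq ?_)) (by positivity)
    ring

end Pool.Agent.Q82.QC
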